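import Pool.Agent.Helper47.Gomoku.Sem

set_option autoImplicit false

namespace Pool.Agent.Gomoku

open Finset

/-- image of a set of cells under a bijection -/
def mv (g : Cell ≃ Cell) (S : Finset Cell) : Finset Cell := S.map g.toEmbedding

theorem mem_mv {g : Cell ≃ Cell} {S : Finset Cell} {c : Cell} : c ∈ mv g S ↔ g.symm c ∈ S := by
  unfold mv
  rw [mem_map]
  constructor
  · rintro ⟨a, ha, rfl⟩
    simpa using ha
  · intro h
    exact ⟨g.symm c, h, by simp⟩

theorem mem_mv' {g : Cell ≃ Cell} {S : Finset Cell} {c : Cell} : g c ∈ mv g S ↔ c ∈ S := by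
  rw [mem_mv, Equiv.symm_apply_apply]

theorem mv_symm_mv (g : Cell ≃ Cell) (S : Finset Cell) : mv g.symm (mv g S) = S := by
  ext c; rw [mem_mv, mem_mv, Equiv.symm_symm, Equiv.symm_apply_apply]

theorem mv_mv_symm (g : Cell ≃ Cell) (S : Finset Cell) : mv g (mv g.symm S) = S := by
  ext c; rw [mem_mv, mem_mv, Equiv.symm_symm, Equiv.apply_symm_apply]

theorem mv_union (g : Cell ≃ Cell) (S T : Finset Cell) : mv g (S ∪ T) = mv g S ∪ mv g T := by
  ext c; simp only [mem_mv, mem_union]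

theorem mv_inter (g : Cell ≃ Cell) (S T : Finset Cell) : mv g (S ∩ T) = mv g S ∩ mv g T := by
  ext c; simp only [mem_mv, mem_inter]

theorem mv_insert (g : Cell ≃ Cell) (a : Cell) (S : Finset Cell) :
    mv g (insert a S) = insert (g a) (mv g S) := by
  ext c; simp only [mem_mv, mem_insert, Equiv.symm_apply_eq]

theorem mv_empty (g : Cell ≃ Cell) : mv g ∅ = ∅ := rfl

theorem mv_card (g : Cell ≃ Cell) (S : Finset Cell) : (mv g S).card = S.card := card_map _

theorem mv_disjoint {g : Cell ≃ Cell} {S T : Finset Cell} :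
    Disjoint (mv g S) (mv g T) ↔ Disjoint S T := disjoint_map _

theorem mv_subset {g : Cell ≃ Cell} {S T : Finset Cell} : mv g S ⊆ mv g T ↔ S ⊆ T :=
  map_subset_map

/-- bijections of the board that preserve the winning lines -/
structure Sym (g : Cell ≃ Cell) : Prop where
  fwd : ∀ L, IsLine L → IsLine (mv g L)
  bwd : ∀ L, IsLine L → IsLine (mv g.symm L)

theorem Sym.symm {g : Cell ≃ Cell} (h : Sym g) : Sym g.symm := ⟨h.bwd, h.fwd⟩

theorem mv_trans (g h : Cell ≃ Cell) (S : Finset Cell) : mv (g.trans h) S = mv h (mv g S) := by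
  ext c; simp only [mem_mv]; rfl

theorem Sym.trans {g h : Cell ≃ Cell} (hg : Sym g) (hh : Sym h) : Sym (g.trans h) :=
  ⟨fun L hL => by rw [mv_trans]; exact hh.fwd _ (hg.fwd _ hL),
   fun L hL => by
    have : (g.trans h).symm = h.symm.trans g.symm := rfl
    rw [this, mv_trans]
    exact hg.bwd _ (hh.bwd _ hL)⟩

theorem Sym.refl : Sym (Equiv.refl Cell) :=
  ⟨fun L hL => by
    have : mv (Equiv.refl Cell) L = L := by ext c; rw [mem_mv]; rfl
    rw [this]; exact hL,
   fun L hL => by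
    have : mv (Equiv.refl Cell).symm L = L := by ext c; rw [mem_mv]; rfl
    rw [this]; exact hL⟩

theorem HasFive.mv {g : Cell ≃ Cell} (hg : Sym g) {S : Finset Cell} (h : HasFive S) :
    HasFive (mv g S) := by
  obtain ⟨L, hL, hLS⟩ := h
  exact ⟨Gomoku.mv g L, hg.fwd L hL, mv_subset.mpr hLS⟩

theorem hasFive_mv {g : Cell ≃ Cell} (hg : Sym g) {S : Finset Cell} :
    HasFive (mv g S) ↔ HasFive S :=
  ⟨fun h => by
    have := HasFive.mv hg.symm h
    rwa [mv_symm_mv] at this, fun h => h.mv hg⟩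

theorem Win.mv {g : Cell ≃ Cell} (hg : Sym g) {n : ℕ} : ∀ {B W : Finset Cell}, Win n B W →
    Win n (mv g B) (mv g W) := by
  induction n with
  | zero => intro B W h; exact h.elim
  | succ n ih =>
    intro B W h
    obtain ⟨b, hb, hb', h⟩ := h
    refine ⟨g b, fun h1 => hb (mem_mv'.mp h1), fun h1 => hb' (mem_mv'.mp h1), ?_⟩
    rw [← mv_insert]
    rcases h with h | h
    · exact Or.inl (h.mv hg)
    · refine Or.inr fun y hy hy' => ?_
      have e : y = g (g.symm y) := by simp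
      rw [e] at hy hy' ⊢
      rw [mem_mv'] at hy hy'
      obtain ⟨h1, h2⟩ := h _ hy hy'
      rw [← mv_insert]
      exact ⟨fun h5 => h1 ((hasFive_mv hg).mp h5), ih h2⟩

theorem win_mv {g : Cell ≃ Cell} (hg : Sym g) {n : ℕ} {B W : Finset Cell} :
    Win n (mv g B) (mv g W) ↔ Win n B W :=
  ⟨fun h => by
    have := Win.mv hg.symm h
    rwa [mv_symm_mv, mv_symm_mv] at this, fun h => h.mv hg⟩

theorem AndWin.mv {g : Cell ≃ Cell} (hg : Sym g) {n : ℕ} {B W : Finset Cell} (h : AndWin n B W) :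
    AndWin n (mv g B) (mv g W) := by
  intro y hy hy'
  have e : y = g (g.symm y) := by simp
  rw [e] at hy hy' ⊢
  rw [mem_mv'] at hy hy'
  obtain ⟨h1, h2⟩ := h _ hy hy'
  rw [← mv_insert]
  exact ⟨fun h5 => h1 ((hasFive_mv hg).mp h5), h2.mv hg⟩

theorem andWin_mv {g : Cell ≃ Cell} (hg : Sym g) {n : ℕ} {B W : Finset Cell} :
    AndWin n (mv g B) (mv g W) ↔ AndWin n B W :=
  ⟨fun h => by
    have := AndWin.mv hg.symm h
    rwa [mv_symm_mv, mv_symm_mv] at this, fun h => h.mv hg⟩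

/-- transformed caps -/
def mvCap (g : Cell ≃ Cell) (cap : Finset Cell → ℕ) (L : Finset Cell) : ℕ := cap (mv g.symm L)

theorem WinOK.mv {g : Cell ≃ Cell} (hg : Sym g) {B X Y : Finset Cell} {cap : Finset Cell → ℕ}
    (h : WinOK B cap X Y) : WinOK (mv g B) (mvCap g cap) (mv g X) (mv g Y) := by
  intro L hL hd
  have e : L = Gomoku.mv g (Gomoku.mv g.symm L) := (mv_mv_symm g L).symm
  have h1 := h (Gomoku.mv g.symm L) (hg.bwd L hL) (by
    rw [e, ← mv_union, mv_disjoint] at hd
    exact hd)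
  unfold mvCap
  rw [← mv_card g, mv_inter, mv_mv_symm] at h1
  exact h1

theorem WinOKP.mv {g : Cell ≃ Cell} (hg : Sym g) {B X Y : Finset Cell} {cap : Finset Cell → ℕ}
    {p q : Cell} (h : WinOKP B cap X Y p q) :
    WinOKP (mv g B) (mvCap g cap) (mv g X) (mv g Y) (g p) (g q) := by
  intro L hL hd hpq
  have e : L = Gomoku.mv g (Gomoku.mv g.symm L) := (mv_mv_symm g L).symm
  have h1 := h (Gomoku.mv g.symm L) (hg.bwd L hL) (by
    rw [e, ← mv_union, mv_disjoint] at hd
    exact hd) (by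
    rw [e, mem_mv', mem_mv'] at hpq
    exact hpq)
  unfold mvCap
  rw [← mv_card g, mv_inter, mv_mv_symm] at h1
  exact h1

theorem Env.mv {g : Cell ≃ Cell} (hg : Sym g) {B K X Y : Finset Cell} {cap : Finset Cell → ℕ}
    {P : Option (Cell × Cell)} (h : Env B K cap X Y P) :
    Env (mv g B) (mv g K) (mvCap g cap) (mv g X) (mv g Y)
      (P.map fun pq => (g pq.1, g pq.2)) := by
  rcases P with _ | ⟨p, q⟩
  · obtain ⟨h1, h2, h3, h4⟩ := h
    exact ⟨mv_disjoint.mpr h1, mv_disjoint.mpr h2, mv_disjoint.mpr h3, h4.mv hg⟩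
  · obtain ⟨⟨hpq, hpK, hqK, hpX, hqX, hpY, hqY⟩, h1, h2, h3, h4, h5, h6⟩ := h
    refine ⟨⟨fun h => hpq (g.injective h), ?_, ?_, ?_, ?_, ?_, ?_⟩, mv_disjoint.mpr h1,
      mv_disjoint.mpr h2, mv_disjoint.mpr h3, h4.mv hg, ?_, ?_⟩
    · rwa [mem_mv']
    · rwa [mem_mv']
    · rwa [mem_mv']
    · rwa [mem_mv']
    · rwa [mem_mv']
    · rwa [mem_mv']
    · have := h5.mv hg
      rwa [mv_insert, mv_insert] at this
    · have := h6.mv hg
      rwa [mv_insert, mv_insert] at this

/-- transformed position data -/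
def Data.mv (g : Cell ≃ Cell) (D : Data) : Data :=
  ⟨Gomoku.mv g D.B, Gomoku.mv g D.W, Gomoku.mv g D.K, mvCap g D.cap⟩

theorem Env.unmv {g : Cell ≃ Cell} (hg : Sym g) {B K X Y : Finset Cell} {cap : Finset Cell → ℕ}
    {P : Option (Cell × Cell)}
    (h : Env (Gomoku.mv g B) (Gomoku.mv g K) (mvCap g cap) X Y P) :
    Env B K cap (Gomoku.mv g.symm X) (Gomoku.mv g.symm Y)
      (P.map fun pq => (g.symm pq.1, g.symm pq.2)) := by
  have h1 := Env.mv hg.symm h
  rw [mv_symm_mv, mv_symm_mv] at h1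
  have e : mvCap g.symm (mvCap g cap) = cap := by
    funext L
    unfold mvCap
    rw [Equiv.symm_symm, mv_symm_mv]
  rwa [e] at h1

theorem Valid.mv {g : Cell ≃ Cell} (hg : Sym g) {D : Data} (h : Valid D) : Valid (D.mv g) := by
  obtain ⟨n, hn⟩ := h
  refine ⟨n, fun X Y P hE => ?_⟩
  have h1 := (hn _ _ _ (Env.unmv hg hE)).mv hg
  rw [mv_union, mv_union, mv_mv_symm, mv_mv_symm] at h1
  exact h1

theorem AndValid.mv {g : Cell ≃ Cell} (hg : Sym g) {D : Data} (h : AndValid D) :
    AndValid (D.mv g) := by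
  obtain ⟨n, hn⟩ := h
  refine ⟨n, fun X Y P hE => ?_⟩
  have h1 := (hn _ _ _ (Env.unmv hg hE)).mv hg
  rw [mv_union, mv_union, mv_mv_symm, mv_mv_symm] at h1
  exact h1

/-! ### the symmetries of the board -/

/-- translation -/
def tr (s : Cell) : Cell ≃ Cell where
  toFun c := (c.1 + s.1, c.2 + s.2)
  invFun c := (c.1 - s.1, c.2 - s.2)
  left_inv c := by simp
  right_inv c := by simp

/-- exchange of the coordinates -/
def sw : Cell ≃ Cell where
  toFun c := (c.2, c.1)
  invFun c := (c.2, c.1)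
  left_inv c := by simp
  right_inv c := by simp

/-- reflection of the first coordinate -/
def rf : Cell ≃ Cell where
  toFun c := (-c.1, c.2)
  invFun c := (-c.1, c.2)
  left_inv c := by simp
  right_inv c := by simp

theorem mv_win5 (g : Cell ≃ Cell) (p v p' v' : Cell)
    (h : ∀ i : ℕ, g (p.1 + (i:ℤ) * v.1, p.2 + (i:ℤ) * v.2) =
      (p'.1 + (i:ℤ) * v'.1, p'.2 + (i:ℤ) * v'.2)) : mv g (win5 p v) = win5 p' v' := by
  ext c
  rw [mem_mv, mem_win5, mem_win5]
  constructor
  · rintro ⟨i, hi, he⟩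
    refine ⟨i, hi, ?_⟩
    rw [← h i, ← he, Equiv.apply_symm_apply]
  · rintro ⟨i, hi, he⟩
    refine ⟨i, hi, ?_⟩
    rw [he, ← h i, Equiv.symm_apply_apply]

/-- the same window read backwards -/
theorem win5_rev (p v : Cell) :
    win5 p v = win5 (p.1 + 4 * v.1, p.2 + 4 * v.2) (-v.1, -v.2) := by
  ext c
  rw [mem_win5, mem_win5]
  constructor
  · rintro ⟨i, hi, he⟩
    refine ⟨4 - i, by omega, ?_⟩
    have h4 : ((4 - i : ℕ) : ℤ) = 4 - i := by omega
    rw [he, h4]
    ext <;> simp only <;> ring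
  · rintro ⟨i, hi, he⟩
    refine ⟨4 - i, by omega, ?_⟩
    have h4 : ((4 - i : ℕ) : ℤ) = 4 - i := by omega
    rw [he, h4]
    ext <;> simp only <;> ring

theorem isLine_neg {p v : Cell} (h : IsDir (-v.1, -v.2)) : IsLine (win5 p v) := by
  rw [win5_rev]
  exact ⟨_, _, h, rfl⟩

theorem isLine_win5 {p v : Cell} (h : IsDir v) : IsLine (win5 p v) := ⟨p, v, h, rfl⟩

theorem sym_tr (s : Cell) : Sym (tr s) := by
  constructor
  · rintro L ⟨p, v, hv, rfl⟩
    rw [mv_win5 (tr s) p v (p.1 + s.1, p.2 + s.2) v (fun i => by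
      simp only [tr, Equiv.coe_fn_mk]
      ext <;> simp only <;> ring)]
    exact isLine_win5 hv
  · rintro L ⟨p, v, hv, rfl⟩
    rw [mv_win5 (tr s).symm p v (p.1 - s.1, p.2 - s.2) v (fun i => by
      simp only [tr, Equiv.coe_fn_symm_mk]
      ext <;> simp only <;> ring)]
    exact isLine_win5 hv

theorem sym_of_invol {g : Cell ≃ Cell} (hg : g.symm = g) (h : ∀ L, IsLine L → IsLine (mv g L)) :
    Sym g := ⟨h, by rw [hg]; exact h⟩

theorem sym_sw : Sym sw := by
  refine sym_of_invol rfl ?_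
  rintro L ⟨p, v, hv, rfl⟩
  rw [mv_win5 sw p v (p.2, p.1) (v.2, v.1) (fun i => rfl)]
  rcases hv with rfl | rfl | rfl | rfl
  · exact isLine_win5 (Or.inr (Or.inl rfl))
  · exact isLine_win5 (Or.inl rfl)
  · exact isLine_win5 (Or.inr (Or.inr (Or.inl rfl)))
  · exact isLine_neg (Or.inr (Or.inr (Or.inr (by simp))))

theorem sym_rf : Sym rf := by
  refine sym_of_invol rfl ?_
  rintro L ⟨p, v, hv, rfl⟩
  rw [mv_win5 rf p v (-p.1, p.2) (-v.1, v.2) (fun i => by
    simp only [rf, Equiv.coe_fn_mk]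
    ext <;> simp only <;> ring)]
  rcases hv with rfl | rfl | rfl | rfl
  · exact isLine_neg (Or.inl (by simp))
  · exact isLine_win5 (Or.inr (Or.inl (by simp)))
  · exact isLine_neg (Or.inr (Or.inr (Or.inr (by simp))))
  · exact isLine_neg (Or.inr (Or.inr (Or.inl (by simp))))

/-- the eight symmetries of the square: bit 0 = exchange, bit 1 = reflection of the first,
bit 2 = reflection of the second coordinate (the exchange is applied first) -/
def d4 (sx rx ry : Bool) : Cell ≃ Cell where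
  toFun c :=
    let c1 : Cell := if sx then (c.2, c.1) else c
    (if rx then -c1.1 else c1.1, if ry then -c1.2 else c1.2)
  invFun c :=
    let c1 : Cell := (if rx then -c.1 else c.1, if ry then -c.2 else c.2)
    if sx then (c1.2, c1.1) else c1
  left_inv c := by cases sx <;> cases rx <;> cases ry <;> simp
  right_inv c := by cases sx <;> cases rx <;> cases ry <;> simp

theorem sym_d4 (sx rx ry : Bool) : Sym (d4 sx rx ry) := by
  have hrf2 : Sym ((sw.trans rf).trans sw) := (sym_sw.trans sym_rf).trans sym_sw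
  have e : d4 sx rx ry = ((if sx then sw else Equiv.refl Cell).trans
      (if rx then rf else Equiv.refl Cell)).trans
      (if ry then (sw.trans rf).trans sw else Equiv.refl Cell) := by
    ext c <;> cases sx <;> cases rx <;> cases ry <;> rfl
  rw [e]
  refine Sym.trans (Sym.trans ?_ ?_) ?_
  · split_ifs
    · exact sym_sw
    · exact Sym.refl
  · split_ifs
    · exact sym_rf
    · exact Sym.refl
  · split_ifs
    · exact hrf2
    · exact Sym.refl

end Pool.Agent.Gomoku
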