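import Pool.Agent.Helper47.Gomoku.Basic

set_option autoImplicit false

namespace Pool.Agent.Gomoku

open Finset

/-- a five, in the form used by the statement -/
theorem hasFive_iff {S : Finset Cell} : HasFive S ↔ ∃ a d : ℤ × ℤ,
    (d = (1, 0) ∨ d = (0, 1) ∨ d = (1, 1) ∨ d = (1, -1)) ∧
      ∀ t : ℤ, 0 ≤ t → t < 5 → (a.1 + t * d.1, a.2 + t * d.2) ∈ S := by
  constructor
  · rintro ⟨L, ⟨a, d, hd, rfl⟩, hL⟩
    refine ⟨a, d, hd, fun t h0 h5 => hL ?_⟩
    rw [mem_win5]
    refine ⟨t.toNat, by omega, ?_⟩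
    rw [Int.toNat_of_nonneg h0]
  · rintro ⟨a, d, hd, h⟩
    refine ⟨win5 a d, ⟨a, d, hd, rfl⟩, fun c hc => ?_⟩
    rw [mem_win5] at hc
    obtain ⟨i, hi, rfl⟩ := hc
    exact h i (by omega) (by omega)

/-- the property of a good black reply with `n` further moves -/
def GoodMove (n : ℕ) (B W : Finset Cell) (b : Cell) : Prop :=
  b ∉ B ∧ b ∉ W ∧ (HasFive (insert b B) ∨
    ∀ y, y ∉ insert b B → y ∉ W → ¬ HasFive (insert y W) ∧ Win n (insert b B) (insert y W))

theorem GoodMove.mono {n m : ℕ} (h : n ≤ m) {B W : Finset Cell} {b : Cell} (hg : GoodMove n B W b) :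
    GoodMove m B W b := by
  obtain ⟨h1, h2, h3⟩ := hg
  refine ⟨h1, h2, ?_⟩
  rcases h3 with h3 | h3
  · exact Or.inl h3
  · exact Or.inr fun y hy hy' => ⟨(h3 y hy hy').1, (h3 y hy hy').2.mono h⟩

open Classical in
/-- the reply of the extracted strategy -/
noncomputable def nextMove (B W : Finset Cell) : Cell :=
  if h : ∃ n, ∃ b, GoodMove n B W b then (Nat.find_spec h).choose else (0, 0)

theorem move_spec {n : ℕ} {B W : Finset Cell} (h : Win (n + 1) B W) : GoodMove n B W (nextMove B W) := by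
  classical
  have hex : ∃ n, ∃ b, GoodMove n B W b := ⟨n, h⟩
  have e : nextMove B W = (Nat.find_spec hex).choose := by
    unfold nextMove
    rw [dif_pos hex]
  rw [e]
  have h1 : GoodMove (Nat.find hex) B W (Nat.find_spec hex).choose := (Nat.find_spec hex).choose_spec
  exact h1.mono (Nat.find_min' hex h)

/-- black stones of a play after `k` rounds -/
def BS (p : ℕ → Cell) (k : ℕ) : Finset Cell := (range k).image fun i => p (2 * i)

/-- white stones of a play after `k` rounds -/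
def WS (p : ℕ → Cell) (k : ℕ) : Finset Cell := (range k).image fun i => p (2 * i + 1)

theorem BS_succ (p : ℕ → Cell) (k : ℕ) : BS p (k + 1) = insert (p (2 * k)) (BS p k) := by
  unfold BS; rw [range_add_one, image_insert]

theorem WS_succ (p : ℕ → Cell) (k : ℕ) : WS p (k + 1) = insert (p (2 * k + 1)) (WS p k) := by
  unfold WS; rw [range_add_one, image_insert]

/-- the extracted strategy -/
noncomputable def strat (l : List (ℤ × ℤ)) : ℤ × ℤ :=
  nextMove ((range (l.length / 2)).image fun i => l.getD (2 * i) (0, 0))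
    ((range (l.length / 2)).image fun i => l.getD (2 * i + 1) (0, 0))

theorem strat_ofFn (p : ℕ → Cell) (k : ℕ) :
    strat (List.ofFn (fun i : Fin (2 * k) => p (i : ℕ))) = nextMove (BS p k) (WS p k) := by
  unfold strat
  have hl : (List.ofFn (fun i : Fin (2 * k) => p (i : ℕ))).length / 2 = k := by
    rw [List.length_ofFn]; omega
  rw [hl]
  congr 1
  · unfold BS
    refine image_congr fun i hi => ?_
    simp only [coe_range, Set.mem_Iio] at hi
    have h1 : 2 * i < (List.ofFn (fun i : Fin (2 * k) => p (i : ℕ))).length := by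
      rw [List.length_ofFn]; omega
    rw [List.getD_eq_getElem _ _ h1, List.getElem_ofFn]
  · unfold WS
    refine image_congr fun i hi => ?_
    simp only [coe_range, Set.mem_Iio] at hi
    have h1 : 2 * i + 1 < (List.ofFn (fun i : Fin (2 * k) => p (i : ℕ))).length := by
      rw [List.length_ofFn]; omega
    rw [List.getD_eq_getElem _ _ h1, List.getElem_ofFn]

theorem mem_of_lt {p : ℕ → Cell} {i k : ℕ} (h : i < 2 * k) : p i ∈ BS p k ∪ WS p k := by
  rw [mem_union]
  rcases Nat.even_or_odd' i with ⟨j, rfl | rfl⟩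
  · left; exact mem_image.mpr ⟨j, mem_range.mpr (by omega), rfl⟩
  · right; exact mem_image.mpr ⟨j, mem_range.mpr (by omega), rfl⟩

/-- the statement of the problem from a bounded win -/
theorem statement_of_win {N : ℕ} (h : Win N ∅ ∅) :
    ∃ N : ℕ, ∃ σ : List (ℤ × ℤ) → ℤ × ℤ,
      ∀ p : ℕ → ℤ × ℤ,
        (∀ k : ℕ, p (2 * k) = σ (List.ofFn (fun i : Fin (2 * k) => p (i : ℕ)))) →
        (∀ j i : ℕ, i < 2 * j + 1 → p i ≠ p (2 * j + 1)) →
        ∃ m : ℕ, m < N ∧
          (∀ k : ℕ, k ≤ m → ∀ i : ℕ, i < 2 * k → p i ≠ p (2 * k)) ∧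
          (∃ a d : ℤ × ℤ,
              (d = (1, 0) ∨ d = (0, 1) ∨ d = (1, 1) ∨ d = (1, -1)) ∧
              ∀ t : ℤ, 0 ≤ t → t < 5 →
                ∃ i : ℕ, i ≤ m ∧ p (2 * i) = (a.1 + t * d.1, a.2 + t * d.2)) ∧
          ¬ (∃ a d : ℤ × ℤ,
              (d = (1, 0) ∨ d = (0, 1) ∨ d = (1, 1) ∨ d = (1, -1)) ∧
              ∀ t : ℤ, 0 ≤ t → t < 5 →
                ∃ i : ℕ, i < m ∧ p (2 * i + 1) = (a.1 + t * d.1, a.2 + t * d.2)) := by
  classical
  refine ⟨N, strat, fun p hp hW => ?_⟩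
  have hmove : ∀ k, p (2 * k) = nextMove (BS p k) (WS p k) := fun k => by
    rw [hp k, strat_ofFn]
  have hy : ∀ k, p (2 * k + 1) ∉ BS p (k + 1) ∧ p (2 * k + 1) ∉ WS p k := fun k => by
    constructor
    · intro hm
      obtain ⟨i, hi, he⟩ := mem_image.mp hm
      rw [mem_range] at hi
      exact hW k (2 * i) (by omega) he
    · intro hm
      obtain ⟨i, hi, he⟩ := mem_image.mp hm
      rw [mem_range] at hi
      exact hW k (2 * i + 1) (by omega) he
  have key : ∀ k, k ≤ N → (∀ j, j < k → ¬ HasFive (BS p (j + 1))) →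
      Win (N - k) (BS p k) (WS p k) ∧ ¬ HasFive (WS p k) ∧
        (∀ j, j < k → p (2 * j) ∉ BS p j ∧ p (2 * j) ∉ WS p j) := by
    intro k
    induction k with
    | zero =>
      intro _ _
      refine ⟨by simpa [BS, WS] using h, ?_, fun j hj => absurd hj (by omega)⟩
      apply not_hasFive_of_card
      simp [WS]
    | succ k ih =>
      intro hk hno
      obtain ⟨hwin, _, hleg⟩ := ih (by omega) fun j hj => hno j (by omega)
      have hNk : N - k = (N - (k + 1)) + 1 := by omega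
      rw [hNk] at hwin
      obtain ⟨g1, g2, g3⟩ := move_spec hwin
      rw [← hmove k] at g1 g2 g3
      rw [← BS_succ] at g3
      obtain ⟨hy1, hy2⟩ := hy k
      have g4 := (g3.resolve_left (hno k (by omega))) _ hy1 hy2
      rw [← WS_succ] at g4
      refine ⟨g4.2, g4.1, fun j hj => ?_⟩
      rcases Nat.lt_succ_iff_lt_or_eq.mp hj with hj | rfl
      · exact hleg j hj
      · exact ⟨g1, g2⟩
  have hex : ∃ j, j < N ∧ HasFive (BS p (j + 1)) := by
    by_contra hcon
    push Not at hcon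
    have h0 := (key N le_rfl fun j hj => hcon j hj).1
    rw [Nat.sub_self] at h0
    exact h0
  set m := Nat.find hex with hm
  obtain ⟨hmN, hfive⟩ : m < N ∧ HasFive (BS p (m + 1)) := Nat.find_spec hex
  have hno : ∀ j, j < m → ¬ HasFive (BS p (j + 1)) := fun j hj h5 =>
    Nat.find_min hex hj ⟨by omega, h5⟩
  obtain ⟨hwin, hnoW, hleg⟩ := key m hmN.le hno
  have hNm : N - m = (N - (m + 1)) + 1 := by omega
  rw [hNm] at hwin
  obtain ⟨g1, g2, _⟩ := move_spec hwin
  rw [← hmove m] at g1 g2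
  refine ⟨m, hmN, fun k hk i hi he => ?_, ?_, ?_⟩
  · have h1 := mem_of_lt (p := p) hi
    rw [mem_union, he] at h1
    rcases Nat.lt_or_eq_of_le hk with hk | rfl
    · obtain ⟨a1, a2⟩ := hleg k hk
      tauto
    · tauto
  · obtain ⟨a, d, hd, had⟩ := hasFive_iff.mp hfive
    refine ⟨a, d, hd, fun t h0 h5 => ?_⟩
    obtain ⟨i, hi, he⟩ := mem_image.mp (had t h0 h5)
    rw [mem_range] at hi
    exact ⟨i, by omega, he⟩
  · rintro ⟨a, d, hd, had⟩
    apply hnoW
    rw [hasFive_iff]
    refine ⟨a, d, hd, fun t h0 h5 => ?_⟩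
    obtain ⟨i, hi, he⟩ := had t h0 h5
    exact mem_image.mpr ⟨i, mem_range.mpr hi, he⟩

end Pool.Agent.Gomoku
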