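import Pool.Agent.Helper93.Gomoku.Sym
import Pool.Agent.Helper93.Gomoku.Extract
import Pool.Agent.Helper47.Gomoku.Far

set_option autoImplicit false

namespace Pool.Agent.Gomoku

open Finset

theorem exists_octant (x : Cell) : ∃ sx rx ry : Bool,
    0 ≤ (d4 sx rx ry x).2 ∧ (d4 sx rx ry x).2 ≤ (d4 sx rx ry x).1 := by
  obtain ⟨a, b⟩ := x
  rcases le_total 0 a with ha | ha <;> rcases le_total 0 b with hb | hb
  · rcases le_total b a with h | h
    · exact ⟨false, false, false, by simpa [d4] using hb, by simpa [d4] using h⟩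
    · exact ⟨true, false, false, by simpa [d4] using ha, by simpa [d4] using h⟩
  · rcases le_total (-b) a with h | h
    · exact ⟨false, false, true, by simpa [d4] using hb, by simpa [d4] using h⟩
    · exact ⟨true, true, false, by simpa [d4] using ha, by simpa [d4] using h⟩
  · rcases le_total b (-a) with h | h
    · exact ⟨false, true, false, by simpa [d4] using hb, by simpa [d4] using h⟩
    · exact ⟨true, false, true, by simpa [d4] using ha, by simpa [d4] using h⟩
  · rcases le_total (-b) (-a) with h | h
    · exact ⟨false, true, true, by simpa [d4] using hb, by simpa [d4] using h⟩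
    · exact ⟨true, true, true, by simpa [d4] using ha, by simpa [d4] using h⟩

theorem inBox_d4 {R : ℤ} {x : Cell} (h : InBox R x) (sx rx ry : Bool) :
    InBox R (d4 sx rx ry x) := by
  unfold InBox at h ⊢
  obtain ⟨a, b⟩ := x
  simp only at h
  cases sx <;> cases rx <;> cases ry <;> simp only [d4, Equiv.coe_fn_mk, if_true, if_false,
    Bool.false_eq_true] <;> omega

theorem d4_zero (sx rx ry : Bool) : d4 sx rx ry (0, 0) = (0, 0) := by
  cases sx <;> cases rx <;> cases ry <;> rfl

theorem mv_singleton (g : Cell ≃ Cell) (x : Cell) : mv g {x} = {g x} := by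
  ext c; rw [mem_mv, mem_singleton, mem_singleton, Equiv.symm_apply_eq]

/-- the final assembly: a far lemma for the second black stone `(1,1)` and a table for the
replies in the octant -/
theorem win_of_table (R : ℤ) (hR : 1 ≤ R)
    (far : ∃ n, ∀ x, ¬ InBox R x → AndWin n {(0, 0), (1, 1)} {x})
    (near : ∀ a b : ℤ, 0 ≤ b → b ≤ a → 1 ≤ a → a ≤ R → ∃ n, Win n {(0, 0)} {(a, b)}) :
    ∃ n, Win n ∅ ∅ := by
  classical
  obtain ⟨n1, h1⟩ := far
  -- every reply in the box
  have hbox : ∀ x : Cell, x ≠ (0, 0) → InBox R x → ∃ n, Win n {(0, 0)} {x} := by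
    intro x hx0 hxR
    obtain ⟨sx, rx, ry, h0, h2⟩ := exists_octant x
    have h3 := inBox_d4 hxR sx rx ry
    set g := d4 sx rx ry with hg
    have hne : g x ≠ (0, 0) := fun h => hx0 (by
      rw [← d4_zero sx rx ry] at h
      exact g.injective h)
    have hpos : 1 ≤ (g x).1 := by
      by_contra hcon
      apply hne
      ext
      · simp only; omega
      · simp only; omega
    obtain ⟨n, hn⟩ := near (g x).1 (g x).2 h0 h2 hpos (by
      unfold InBox at h3
      exact h3.2.1)
    refine ⟨n, (win_mv (sym_d4 sx rx ry)).mp ?_⟩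
    rw [mv_singleton, mv_singleton, d4_zero]
    exact hn
  let box : Finset Cell := (Finset.Icc (-R) R) ×ˢ (Finset.Icc (-R) R)
  have hmem : ∀ x : Cell, x ∈ box ↔ InBox R x := fun x => by
    simp only [box, mem_product, mem_Icc, InBox]
    tauto
  choose! f hf using fun x (h : x ≠ (0, 0) ∧ InBox R x) => hbox x h.1 h.2
  set n2 := (box.sup f) with hn2
  refine ⟨max (n1 + 1) n2 + 1, (0, 0), notMem_empty _, notMem_empty _, Or.inr fun y hy _ => ?_⟩
  have hy0 : y ≠ (0, 0) := fun h => hy (by simp [h])
  refine ⟨not_hasFive_of_card (by simp), ?_⟩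
  have e1 : insert ((0, 0) : Cell) (∅ : Finset Cell) = {(0, 0)} := insert_empty_eq _
  have e2 : insert y (∅ : Finset Cell) = {y} := insert_empty_eq _
  rw [e1, e2]
  by_cases hyR : InBox R y
  · refine (hf y ⟨hy0, hyR⟩).mono (le_trans ?_ (le_max_right _ _))
    exact Finset.le_sup (f := f) ((hmem y).mpr hyR)
  · refine Win.mono (le_max_left _ _) (Win.of_and (b := (1, 1)) (by simp) ?_ ?_)
    · rw [mem_singleton]
      rintro rfl
      apply hyR
      unfold InBox
      simp only
      omega
    · have h2 := h1 y hyR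
      have e3 : ({(0, 0), (1, 1)} : Finset Cell) = insert (1, 1) {(0, 0)} := by decide
      rwa [e3] at h2

end Pool.Agent.Gomoku
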