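import Pool.Agent.Helper47.Gom2.RootDef
import Pool.Agent.Helper93.Gomoku.Final

set_option autoImplicit false

namespace Pool.Agent.Gomoku

open Finset

/-- numeric side conditions: the symmetry given by `sx rx ry` together with a translation sends
`q` (the stone `p1`, or `p2` when `fl`) to the origin and `x` to `(a, b)` -/
def nearChk (fl sx rx ry : Bool) (p1 p2 x : ℕ) (a b : ℤ) : Bool :=
  let q := cond fl p2 p1
  let u : ℤ := ((x % 32 : ℕ) : ℤ) - ((q % 32 : ℕ) : ℤ)
  let v : ℤ := ((x / 32 : ℕ) : ℤ) - ((q / 32 : ℕ) : ℤ)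
  let u1 := cond sx v u
  let v1 := cond sx u v
  (Nat.blt p1 1024) && (Nat.blt p2 1024) && (Nat.blt x 1024) && (!(Nat.beq p1 p2)) &&
    (!(Nat.beq p1 x)) && (!(Nat.beq p2 x)) &&
    (decide (cond rx (-u1) u1 = a)) && (decide (cond ry (-v1) v1 = b))

theorem near_aux {q r x : ℕ} (hq : q < 1024) (hr : r < 1024) (hx : x < 1024) (hqr : q ≠ r)
    (hrx : r ≠ x) {n : ℕ} {off : Cell} (sx rx ry : Bool)
    (h : AndWin n (dec off (Nat.lor (bit1 q) (bit1 r))) (dec off (bit1 x))) {a b : ℤ}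
    (hab : d4 sx rx ry ((cellOf off x).1 - (cellOf off q).1,
      (cellOf off x).2 - (cellOf off q).2) = (a, b)) :
    ∃ n, Win n {(0, 0)} {(a, b)} := by
  have e1 : dec off (Nat.lor (bit1 q) (bit1 r)) = {cellOf off q, cellOf off r} := by
    unfold bit1
    rw [dec_insert hr, dec_bit hq]
    ext c
    simp only [mem_insert, mem_singleton]
    tauto
  have e2 : dec off (bit1 x) = {cellOf off x} := dec_bit hx
  rw [e1, e2] at h
  set g : Cell ≃ Cell := (tr (-(cellOf off q).1, -(cellOf off q).2)).trans (d4 sx rx ry) with hg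
  have hsym : Sym g := (sym_tr _).trans (sym_d4 _ _ _)
  have gx : g (cellOf off x) = (a, b) := by
    rw [← hab, hg]
    rfl
  have gq : g (cellOf off q) = (0, 0) := by
    have : g (cellOf off q) = d4 sx rx ry (0, 0) := by
      rw [hg]
      show d4 sx rx ry ((cellOf off q).1 + -(cellOf off q).1,
        (cellOf off q).2 + -(cellOf off q).2) = _
      rw [add_neg_cancel, add_neg_cancel]
    rw [this, d4_zero]
  have h1 := h.mv hsym
  have e3 : mv g {cellOf off q, cellOf off r} = insert (g (cellOf off r)) {(0, 0)} := by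
    rw [mv_insert, mv_singleton, gq]
    ext c
    simp only [mem_insert, mem_singleton]
    tauto
  rw [e3, mv_singleton, gx] at h1
  refine ⟨n + 1, Win.of_and (b := g (cellOf off r)) ?_ ?_ h1⟩
  · rw [mem_singleton, ← gq]
    exact fun h2 => hqr (cellOf_inj hq hr (g.injective h2).symm)
  · rw [mem_singleton, ← gx]
    exact fun h2 => hrx (cellOf_inj hr hx (g.injective h2))

/-- from a root position to the reply `(a, b)` -/
theorem near_of_root {p1 p2 x : ℕ}
    (h : ∀ off, ∃ n, AndWin n (dec off (Nat.lor (bit1 p1) (bit1 p2))) (dec off (bit1 x)))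
    (fl sx rx ry : Bool) {a b : ℤ} (hc : nearChk fl sx rx ry p1 p2 x a b = true) :
    ∃ n, Win n {(0, 0)} {(a, b)} := by
  unfold nearChk at hc
  simp only [Bool.and_eq_true, Bool.not_eq_true', decide_eq_true_eq] at hc
  obtain ⟨⟨⟨⟨⟨⟨⟨h1, h2⟩, h3⟩, h4⟩, h5⟩, h6⟩, h7⟩, h8⟩ := hc
  have l1 : p1 < 1024 := by simpa [Nat.blt_eq] using h1
  have l2 : p2 < 1024 := by simpa [Nat.blt_eq] using h2
  have l3 : x < 1024 := by simpa [Nat.blt_eq] using h3
  have n12 : p1 ≠ p2 := fun h => by subst h; simp at h4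
  have n1x : p1 ≠ x := fun h => by subst h; simp at h5
  have n2x : p2 ≠ x := fun h => by subst h; simp at h6
  obtain ⟨n, hn⟩ := h (0, 0)
  have hcell : ∀ q : ℕ, ((cellOf (0, 0) x).1 - (cellOf (0, 0) q).1,
      (cellOf (0, 0) x).2 - (cellOf (0, 0) q).2) =
      ((((x % 32 : ℕ) : ℤ) - ((q % 32 : ℕ) : ℤ), ((x / 32 : ℕ) : ℤ) - ((q / 32 : ℕ) : ℤ)) : Cell) := by
    intro q
    unfold cellOf
    ext
    · simp only; omega
    · simp only; omega
  have hd : ∀ q : ℕ, q = cond fl p2 p1 → d4 sx rx ry ((cellOf (0, 0) x).1 - (cellOf (0, 0) q).1,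
      (cellOf (0, 0) x).2 - (cellOf (0, 0) q).2) = (a, b) := by
    intro q hq
    rw [hcell q, hq, ← h7, ← h8]
    cases fl <;> cases sx <;> cases rx <;> cases ry <;> rfl
  cases fl
  · exact near_aux l1 l2 l3 n12 n2x sx rx ry hn (hd p1 rfl)
  · have e : Nat.lor (bit1 p1) (bit1 p2) = Nat.lor (bit1 p2) (bit1 p1) := Nat.lor_comm _ _
    rw [e] at hn
    exact near_aux l2 l1 l3 n12.symm n1x sx rx ry hn (hd p2 rfl)


end Pool.Agent.Gomoku
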