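import Pool.Agent.Helper47.Gomoku.Sem
import Pool.Agent.Helper93.Gomoku.Sym

set_option autoImplicit false

namespace Pool.Agent.Gomoku

open Finset

/-! # Bitboards

A board is a natural number below `2^1024`; bit `i` stands for the cell
`(off.1 + i % 32, off.2 + i / 32)`, where `off : Cell` is the real position of the lower left corner.
A set of windows is a natural number below `2^4096`; bit `1024 d + s` stands for the window that
starts at the board cell `s` and has index step `delta d` (1, 32, 33, 31). -/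

/-- index steps of the four directions -/
def delta : ℕ → ℕ
  | 0 => 1
  | 1 => 32
  | 2 => 33
  | _ => 31

def cellOf (off : Cell) (i : ℕ) : Cell := (off.1 + ((i % 32 : ℕ) : ℤ), off.2 + ((i / 32 : ℕ) : ℤ))

/-- the set of cells of a bitboard -/
def dec (off : Cell) (n : ℕ) : Finset Cell :=
  ((Finset.range 1024).filter fun i => n.testBit i = true).image (cellOf off)

/-- the window with number `k` -/
def winK (off : Cell) (k : ℕ) : Finset Cell :=
  (Finset.range 5).image fun j => cellOf off (k % 1024 + j * delta (k / 1024))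

/-- numbers of windows that lie in the board (no wrapping) -/
def VM : ℕ := 0xfffffff0fffffff0fffffff0fffffff0fffffff0fffffff0fffffff0fffffff0fffffff0fffffff0fffffff0fffffff0fffffff0fffffff0fffffff0fffffff0fffffff0fffffff0fffffff0fffffff0fffffff0fffffff0fffffff0fffffff0fffffff0fffffff0fffffff0fffffff0000000000000000000000000000000000fffffff0fffffff0fffffff0fffffff0fffffff0fffffff0fffffff0fffffff0fffffff0fffffff0fffffff0fffffff0fffffff0fffffff0fffffff0fffffff0fffffff0fffffff0fffffff0fffffff0fffffff0fffffff0fffffff0fffffff0fffffff0fffffff0fffffff0fffffff00000000000000000000000000000000ffffffffffffffffffffffffffffffffffffffffffffffffffffffffffffffffffffffffffffffffffffffffffffffffffffffffffffffffffffffffffffffffffffffffffffffffffffffffffffffffffffffffffffffffffffffffffffffffffffffffffffffffffffffffffffffff0fffffff0fffffff0fffffff0fffffff0fffffff0fffffff0fffffff0fffffff0fffffff0fffffff0fffffff0fffffff0fffffff0fffffff0fffffff0fffffff0fffffff0fffffff0fffffff0fffffff0fffffff0fffffff0fffffff0fffffff0fffffff0fffffff0fffffff0fffffff0fffffff0fffffff0fffffff0fffffff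

/-- windows through the cell 132 = (4, 4) -/
def TM : ℕ := 0x1000000020000000400000008000000100000000000000000000000000000000000000000000000000000000000000000000000000000000000000000000000000000000000000000000000000000000000000000000000000000000000000000000000000000000000000000000000000000000000000000000000000000000100000000800000004000000020000000100000000000000000000000000000000000000000000000000000000000000000000000000000000000000000000000000000000000000000000000000000000000000000000000000000000000000000000000000000000000000000000000000000000000000000000000000000010000000100000001000000010000000100000000000000000000000000000000000000000000000000000000000000000000000000000000000000000000000000000000000000000000000000000000000000000000000000000000000000000000000000000000000000000000000000000000000000000000000000000001f00000000000000000000000000000000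

/-- windows through the (inner) cell `c` -/
def WT (c : ℕ) : ℕ := Nat.shiftLeft TM (Nat.sub c 132)

/-- inner cells -/
def Inner (c : ℕ) : Prop := 4 ≤ c % 32 ∧ c % 32 ≤ 27 ∧ 4 ≤ c / 32 ∧ c / 32 ≤ 27

/-- mask of the inner cells -/
def IM : ℕ := 0xffffff00ffffff00ffffff00ffffff00ffffff00ffffff00ffffff00ffffff00ffffff00ffffff00ffffff00ffffff00ffffff00ffffff00ffffff00ffffff00ffffff00ffffff00ffffff00ffffff00ffffff00ffffff00ffffff00ffffff000000000000000000000000000000000

/-- union of the cells of the windows of one direction (step `dl`), `e` below `2^1024` -/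
def expand (e dl : ℕ) : ℕ :=
  let a := Nat.lor e (Nat.shiftLeft e dl)
  let b := Nat.lor a (Nat.shiftLeft a (Nat.mul 2 dl))
  Nat.lor b (Nat.shiftLeft e (Nat.mul 4 dl))

def FM : ℕ := 0xffffffffffffffffffffffffffffffffffffffffffffffffffffffffffffffffffffffffffffffffffffffffffffffffffffffffffffffffffffffffffffffffffffffffffffffffffffffffffffffffffffffffffffffffffffffffffffffffffffffffffffffffffffffffffffffffffffffffffffffffffffffffffffffff

/-- union of the cells of the windows in the window mask `E` -/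
def cellsOf (E : ℕ) : ℕ :=
  Nat.lor (Nat.lor (expand (Nat.land E FM) 1) (expand (Nat.land (Nat.shiftRight E 1024) FM) 32))
    (Nat.lor (expand (Nat.land (Nat.shiftRight E 2048) FM) 33)
      (expand (Nat.land (Nat.shiftRight E 3072) FM) 31))

/-- the windows of a window mask, as real windows -/
def InMask (off : Cell) (E : ℕ) (L : Finset Cell) : Prop :=
  ∃ k, VM.testBit k = true ∧ E.testBit k = true ∧ L = winK off k

open Classical in
/-- caps from masks: 1 on `C1`, 2 on `C2`, `g` elsewhere -/
noncomputable def capOf (off : Cell) (C1 C2 g : ℕ) (L : Finset Cell) : ℕ :=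
  if InMask off C1 L then 1 else if InMask off C2 L then 2 else g

/-! ### Lemmas on cells -/

theorem mem_dec {off : Cell} {n : ℕ} {c : Cell} :
    c ∈ dec off n ↔ ∃ i, i < 1024 ∧ n.testBit i = true ∧ c = cellOf off i := by
  unfold dec
  rw [mem_image]
  constructor
  · rintro ⟨i, hi, rfl⟩
    rw [mem_filter, mem_range] at hi
    exact ⟨i, hi.1, hi.2, rfl⟩
  · rintro ⟨i, h1, h2, rfl⟩
    exact ⟨i, by rw [mem_filter, mem_range]; exact ⟨h1, h2⟩, rfl⟩

theorem cellOf_inj {off : Cell} {i j : ℕ} (hi : i < 1024) (hj : j < 1024)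
    (h : cellOf off i = cellOf off j) : i = j := by
  unfold cellOf at h
  rw [Prod.mk.injEq] at h
  omega

theorem cellOf_mem_dec {off : Cell} {n i : ℕ} (hi : i < 1024) :
    cellOf off i ∈ dec off n ↔ n.testBit i = true := by
  rw [mem_dec]
  constructor
  · rintro ⟨j, hj, h1, h2⟩
    rw [cellOf_inj hi hj h2]; exact h1
  · intro h
    exact ⟨i, hi, h, rfl⟩

theorem dec_zero {off : Cell} : dec off 0 = ∅ := by
  ext c
  rw [mem_dec]
  simp

theorem lor_testBit (n m i : ℕ) : (Nat.lor n m).testBit i = (n.testBit i || m.testBit i) :=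
  Nat.testBit_or n m i

theorem land_testBit (n m i : ℕ) : (Nat.land n m).testBit i = (n.testBit i && m.testBit i) :=
  Nat.testBit_and n m i

theorem shl_testBit (n m i : ℕ) :
    (Nat.shiftLeft n m).testBit i = (decide (m ≤ i) && n.testBit (i - m)) :=
  Nat.testBit_shiftLeft n

theorem shr_testBit (n m i : ℕ) : (Nat.shiftRight n m).testBit i = n.testBit (m + i) :=
  Nat.testBit_shiftRight n

theorem dec_lor {off : Cell} {n m : ℕ} : dec off (Nat.lor n m) = dec off n ∪ dec off m := by
  ext c
  rw [mem_union, mem_dec, mem_dec, mem_dec]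
  simp only [lor_testBit, Bool.or_eq_true]
  constructor
  · rintro ⟨i, h1, h2 | h2, h3⟩
    · exact Or.inl ⟨i, h1, h2, h3⟩
    · exact Or.inr ⟨i, h1, h2, h3⟩
  · rintro (⟨i, h1, h2, h3⟩ | ⟨i, h1, h2, h3⟩)
    · exact ⟨i, h1, Or.inl h2, h3⟩
    · exact ⟨i, h1, Or.inr h2, h3⟩

theorem dec_land {off : Cell} {n m : ℕ} : dec off (Nat.land n m) = dec off n ∩ dec off m := by
  ext c
  rw [mem_inter, mem_dec, mem_dec, mem_dec]
  simp only [land_testBit, Bool.and_eq_true]
  constructor
  · rintro ⟨i, h1, ⟨h2, h2'⟩, h3⟩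
    exact ⟨⟨i, h1, h2, h3⟩, ⟨i, h1, h2', h3⟩⟩
  · rintro ⟨⟨i, h1, h2, h3⟩, ⟨j, g1, g2, g3⟩⟩
    have := cellOf_inj h1 g1 (h3.symm.trans g3)
    subst this
    exact ⟨i, h1, ⟨h2, g2⟩, h3⟩

theorem dec_bit {off : Cell} {c : ℕ} (hc : c < 1024) :
    dec off (Nat.shiftLeft 1 c) = {cellOf off c} := by
  ext x
  rw [mem_dec, mem_singleton]
  constructor
  · rintro ⟨i, hi, h, rfl⟩
    rw [shl_testBit, Bool.and_eq_true, decide_eq_true_eq, Nat.testBit_one_eq_true_iff_self_eq_zero] at h
    have : i = c := by omega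
    rw [this]
  · rintro rfl
    refine ⟨c, hc, ?_, rfl⟩
    rw [shl_testBit, Nat.sub_self]
    simp

theorem cellOf_shift {off : Cell} {i dx dy : ℕ} (h : i % 32 + dx < 32) :
    cellOf off (i + (dx + 32 * dy)) = cellOf (off.1 + dx, off.2 + dy) i := by
  unfold cellOf
  have h1 : (i + (dx + 32 * dy)) % 32 = i % 32 + dx := by omega
  have h2 : (i + (dx + 32 * dy)) / 32 = i / 32 + dy := by omega
  rw [h1, h2]
  push_cast
  ext
  · simp only; ring
  · simp only; ring

/-- translation of a board: no wrapping if all bits `i` satisfy `i % 32 + dx < 32`,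
`i / 32 + dy < 32`. -/
theorem dec_shift {off : Cell} {n dx dy : ℕ}
    (h : ∀ i, i < 1024 → n.testBit i = true → i % 32 + dx < 32 ∧ i / 32 + dy < 32)
    (_hn : ∀ i, 1024 ≤ i → n.testBit i = false) :
    dec off (Nat.shiftLeft n (dx + 32 * dy)) = dec (off.1 + dx, off.2 + dy) n := by
  ext c
  rw [mem_dec, mem_dec]
  constructor
  · rintro ⟨i, hi, h1, rfl⟩
    rw [shl_testBit, Bool.and_eq_true, decide_eq_true_eq] at h1
    have h2 := h (i - (dx + 32 * dy)) (by omega) h1.2
    refine ⟨i - (dx + 32 * dy), by omega, h1.2, ?_⟩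
    rw [← cellOf_shift h2.1]
    congr 1
    omega
  · rintro ⟨i, hi, h1, rfl⟩
    have h2 := h i hi h1
    refine ⟨i + (dx + 32 * dy), by omega, ?_, (cellOf_shift h2.1).symm⟩
    rw [shl_testBit, Bool.and_eq_true, decide_eq_true_eq]
    refine ⟨by omega, ?_⟩
    rw [Nat.add_sub_cancel]; exact h1

theorem cellOf_tr {s : Cell} {i : ℕ} : cellOf s i = tr s (cellOf (0, 0) i) := by
  unfold cellOf tr
  simp only [Equiv.coe_fn_mk]
  ext
  · simp only; ring
  · simp only; ring

theorem dec_mv_tr {s : Cell} {n : ℕ} : dec s n = mv (tr s) (dec (0, 0) n) := by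
  ext c
  rw [mem_mv, mem_dec, mem_dec]
  constructor
  · rintro ⟨i, hi, h, rfl⟩
    exact ⟨i, hi, h, by rw [cellOf_tr, Equiv.symm_apply_apply]⟩
  · rintro ⟨i, hi, h, h2⟩
    exact ⟨i, hi, h, by rw [cellOf_tr, ← h2, Equiv.apply_symm_apply]⟩

/-! ### Lemmas on windows -/

/-- validity of the window `s = 32 y + x` of direction `d` -/
def VOK (d y x : ℕ) : Prop :=
  (d = 0 ∧ x ≤ 27) ∨ (d = 1 ∧ y ≤ 27) ∨ (d = 2 ∧ x ≤ 27 ∧ y ≤ 27) ∨ (d = 3 ∧ 4 ≤ x ∧ y ≤ 27)

instance (d y x : ℕ) : Decidable (VOK d y x) := by unfold VOK; infer_instance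

theorem VM_table : ∀ d < 4, ∀ y < 32, ∀ x < 32,
    VM.testBit (1024 * d + (32 * y + x)) = decide (VOK d y x) := by
  decide +kernel

theorem VM_lt {k : ℕ} (hk : VM.testBit k = true) : k < 4096 := by
  by_contra h
  have h1 : VM < 2 ^ 4096 := by decide +kernel
  have h2 : VM < 2 ^ k := lt_of_lt_of_le h1 (Nat.pow_le_pow_right (by norm_num) (by omega))
  rw [Nat.testBit_lt_two_pow h2] at hk
  exact absurd hk (by decide)

theorem VM_iff {k : ℕ} (hk : k < 4096) :
    VM.testBit k = true ↔ VOK (k / 1024) (k % 1024 / 32) (k % 32) := by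
  have h := VM_table (k / 1024) (by omega) (k % 1024 / 32) (by omega) (k % 32) (by omega)
  have e : 1024 * (k / 1024) + (32 * (k % 1024 / 32) + k % 32) = k := by omega
  rw [e] at h
  rw [h, decide_eq_true_eq]

theorem VM_vok {k : ℕ} (hk : VM.testBit k = true) : k < 4096 ∧
    VOK (k / 1024) (k % 1024 / 32) (k % 32) :=
  ⟨VM_lt hk, (VM_iff (VM_lt hk)).mp hk⟩

/-- real direction of the windows with index step `delta d` -/
def dirOf : ℕ → Cell
  | 0 => (1, 0)
  | 1 => (0, 1)
  | 2 => (1, 1)
  | _ => (-1, 1)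

theorem cell_step {off : Cell} {d y x j : ℕ} (hd : d < 4) (h : VOK d y x) (hx : x < 32)
    (hy : y < 32) (hj : j < 5) :
    cellOf off ((32 * y + x) + j * delta d) =
      ((cellOf off (32 * y + x)).1 + (j : ℤ) * (dirOf d).1,
        (cellOf off (32 * y + x)).2 + (j : ℤ) * (dirOf d).2) ∧
      (32 * y + x) + j * delta d < 1024 := by
  unfold VOK at h
  have hd' : d = 0 ∨ d = 1 ∨ d = 2 ∨ d = 3 := by omega
  rcases hd' with rfl | rfl | rfl | rfl <;> simp only [delta, dirOf, cellOf, Prod.mk.injEq] <;>
    simp at h <;> omega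

theorem k_split (k : ℕ) : k % 1024 = 32 * (k % 1024 / 32) + k % 32 := by omega

/-- all five cells of a valid window are board cells -/
theorem VM_cells {k : ℕ} (hk : VM.testBit k = true) {j : ℕ} (hj : j < 5) :
    k % 1024 + j * delta (k / 1024) < 1024 := by
  obtain ⟨h1, h2⟩ := VM_vok hk
  have h := (cell_step (off := (0, 0)) (by omega) h2 (by omega) (by omega) hj).2
  rw [← k_split] at h
  exact h

theorem winK_eq {off : Cell} {d y x : ℕ} (hd : d < 4) (h : VOK d y x) (hx : x < 32)
    (hy : y < 32) : winK off (1024 * d + (32 * y + x)) =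
      win5 (cellOf off (32 * y + x)) (dirOf d) := by
  unfold winK win5
  refine image_congr fun j hj => ?_
  simp only [coe_range, Set.mem_Iio] at hj
  have e1 : (1024 * d + (32 * y + x)) % 1024 = 32 * y + x := by omega
  have e2 : (1024 * d + (32 * y + x)) / 1024 = d := by omega
  rw [e1, e2]
  exact (cell_step hd h hx hy hj).1

theorem isLine_dir {p : Cell} {d : ℕ} (hd : d < 4) : IsLine (win5 p (dirOf d)) := by
  have hd' : d = 0 ∨ d = 1 ∨ d = 2 ∨ d = 3 := by omega
  rcases hd' with rfl | rfl | rfl | rfl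
  · exact isLine_win5 (Or.inl rfl)
  · exact isLine_win5 (Or.inr (Or.inl rfl))
  · exact isLine_win5 (Or.inr (Or.inr (Or.inl rfl)))
  · exact isLine_neg (Or.inr (Or.inr (Or.inr (by simp [dirOf]))))

theorem isLine_winK {off : Cell} {k : ℕ} (hk : VM.testBit k = true) : IsLine (winK off k) := by
  obtain ⟨h1, h2⟩ := VM_vok hk
  have e : k = 1024 * (k / 1024) + (32 * (k % 1024 / 32) + k % 32) := by omega
  rw [e, winK_eq (by omega) h2 (by omega) (by omega)]
  exact isLine_dir (by omega)

/-- every real window that meets an inner cell is a window of the board -/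
theorem exists_winK {off : Cell} {L : Finset Cell} (hL : IsLine L) {c : ℕ} (hc : Inner c)
    (h : cellOf off c ∈ L) : ∃ k, VM.testBit k = true ∧ L = winK off k := by
  obtain ⟨p, v, hv, rfl⟩ := hL
  rw [mem_win5] at h
  obtain ⟨i, hi, he⟩ := h
  unfold Inner at hc
  -- the general construction
  have gen : ∀ d y x : ℕ, d < 4 → VOK d y x → x < 32 → y < 32 →
      win5 p v = win5 (cellOf off (32 * y + x)) (dirOf d) →
      ∃ k, VM.testBit k = true ∧ win5 p v = winK off k := by
    intro d y x hd hok hx hy hw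
    refine ⟨1024 * d + (32 * y + x), ?_, ?_⟩
    · rw [VM_table d hd y hy x hx, decide_eq_true_eq]; exact hok
    · rw [winK_eq hd hok hx hy, hw]
  unfold cellOf at he
  rw [Prod.mk.injEq] at he
  obtain ⟨he1, he2⟩ := he
  rcases hv with rfl | rfl | rfl | rfl
  · refine gen 0 (c / 32) (c % 32 - i) (by omega) (by unfold VOK; omega) (by omega) (by omega) ?_
    congr 1
    unfold cellOf
    ext
    · simp only at he1 ⊢; omega
    · simp only at he2 ⊢; omega
  · refine gen 1 (c / 32 - i) (c % 32) (by omega) (by unfold VOK; omega) (by omega) (by omega) ?_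
    congr 1
    unfold cellOf
    ext
    · simp only at he1 ⊢; omega
    · simp only at he2 ⊢; omega
  · refine gen 2 (c / 32 - i) (c % 32 - i) (by omega) (by unfold VOK; omega) (by omega)
      (by omega) ?_
    congr 1
    unfold cellOf
    ext
    · simp only at he1 ⊢; omega
    · simp only at he2 ⊢; omega
  · refine gen 3 (c / 32 - (4 - i)) (c % 32 + (4 - i)) (by omega) (by unfold VOK; omega)
      (by omega) (by omega) ?_
    rw [win5_rev]
    congr 1
    unfold cellOf
    ext
    · simp only at he1 ⊢; omega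
    · simp only at he2 ⊢; omega

theorem mem_winK {off : Cell} {k : ℕ} {c : Cell} :
    c ∈ winK off k ↔ ∃ j, j < 5 ∧ c = cellOf off (k % 1024 + j * delta (k / 1024)) := by
  unfold winK
  rw [mem_image]
  constructor
  · rintro ⟨j, hj, rfl⟩; exact ⟨j, mem_range.mp hj, rfl⟩
  · rintro ⟨j, hj, rfl⟩; exact ⟨j, mem_range.mpr hj, rfl⟩

theorem TM_table : ∀ d < 4, ∀ y < 32, ∀ x < 32,
    TM.testBit (1024 * d + (32 * y + x)) =
      decide (∃ j ∈ Finset.range 5, (32 * y + x) + j * delta d = 132) := by
  decide +kernel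

theorem TM_iff {k : ℕ} (hk : k < 4096) :
    TM.testBit k = true ↔ ∃ j, j < 5 ∧ k % 1024 + j * delta (k / 1024) = 132 := by
  have h := TM_table (k / 1024) (by omega) (k % 1024 / 32) (by omega) (k % 32) (by omega)
  have e : 1024 * (k / 1024) + (32 * (k % 1024 / 32) + k % 32) = k := by omega
  rw [e, ← k_split] at h
  rw [h, decide_eq_true_eq]
  simp only [Finset.mem_range]

theorem testBit_WT {off : Cell} {c k : ℕ} (hc : Inner c) (hk : VM.testBit k = true) :
    (WT c).testBit k = true ↔ cellOf off c ∈ winK off k := by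
  obtain ⟨h1, h2⟩ := VM_vok hk
  unfold Inner at hc
  unfold WT
  rw [shl_testBit, Bool.and_eq_true, decide_eq_true_eq, mem_winK]
  have hsub : Nat.sub c 132 = c - 132 := rfl
  rw [hsub]
  constructor
  · rintro ⟨h3, h4⟩
    rw [TM_iff (by omega)] at h4
    obtain ⟨j, hj, h5⟩ := h4
    refine ⟨j, hj, ?_⟩
    have h6 : (k - (c - 132)) % 1024 ≤ 132 := by omega
    have h7 : (k - (c - 132)) / 1024 = k / 1024 := by omega
    rw [h7] at h5
    have h8 : k % 1024 = (k - (c - 132)) % 1024 + (c - 132) := by omega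
    have h9 : c = k % 1024 + j * delta (k / 1024) := by omega
    exact congrArg (cellOf off) h9
  · rintro ⟨j, hj, h5⟩
    have h6 := VM_cells hk hj
    have h7 := cellOf_inj (by omega) h6 h5
    have hdel : j * delta (k / 1024) ≤ 132 := by
      have : delta (k / 1024) ≤ 33 := by
        have hd' : k / 1024 = 0 ∨ k / 1024 = 1 ∨ k / 1024 = 2 ∨ k / 1024 = 3 := by omega
        rcases hd' with h | h | h | h <;> rw [h] <;> simp [delta]
      calc j * delta (k / 1024) ≤ 4 * 33 := Nat.mul_le_mul (by omega) this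
        _ = 132 := by norm_num
    refine ⟨by omega, ?_⟩
    rw [TM_iff (by omega)]
    refine ⟨j, hj, ?_⟩
    have h8 : (k - (c - 132)) / 1024 = k / 1024 := by omega
    have h9 : (k - (c - 132)) % 1024 = k % 1024 - (c - 132) := by omega
    rw [h8, h9]
    omega

theorem inner_lt {c : ℕ} (hc : Inner c) : c < 1024 := by
  unfold Inner at hc
  omega

instance (c : ℕ) : Decidable (Inner c) := by unfold Inner; infer_instance

theorem IM_table : ∀ y < 32, ∀ x < 32,
    IM.testBit (32 * y + x) = decide (Inner (32 * y + x)) := by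
  decide +kernel

theorem testBit_IM {c : ℕ} : IM.testBit c = true ↔ Inner c := by
  by_cases hc : c < 1024
  · have h := IM_table (c / 32) (by omega) (c % 32) (by omega)
    have e : 32 * (c / 32) + c % 32 = c := by omega
    rw [e] at h
    rw [h, decide_eq_true_eq]
  · have h1 : IM < 2 ^ 1024 := by decide +kernel
    have h2 : IM < 2 ^ c := lt_of_lt_of_le h1 (Nat.pow_le_pow_right (by norm_num) (by omega))
    rw [Nat.testBit_lt_two_pow h2]
    constructor
    · intro h; exact absurd h (by decide)
    · intro h; exact absurd (inner_lt h) hc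

theorem expand_bit {e dl s j : ℕ} (he : e.testBit s = true) (hj : j < 5) :
    (expand e dl).testBit (s + j * dl) = true := by
  have h2 : Nat.mul 2 dl = 2 * dl := rfl
  have h4 : Nat.mul 4 dl = 4 * dl := rfl
  unfold expand
  simp only [lor_testBit, shl_testBit, h2, h4]
  have hj' : j = 0 ∨ j = 1 ∨ j = 2 ∨ j = 3 ∨ j = 4 := by omega
  rcases hj' with rfl | rfl | rfl | rfl | rfl
  · simp [he]
  · have e1 : s + 1 * dl - dl = s := by omega
    have e2 : dl ≤ s + 1 * dl := by omega
    simp [he, e2, e1]
  · have e1 : s + 2 * dl - 2 * dl = s := by omega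
    have e2 : 2 * dl ≤ s + 2 * dl := by omega
    simp [he, e2, e1]
  · have e1 : s + 3 * dl - 2 * dl - dl = s := by omega
    have e2 : 2 * dl ≤ s + 3 * dl := by omega
    have e3 : dl ≤ s + 3 * dl - 2 * dl := by omega
    simp [he, e2, e1, e3]
  · have e1 : s + 4 * dl - 4 * dl = s := by omega
    have e2 : 4 * dl ≤ s + 4 * dl := by omega
    simp [he, e2, e1]

theorem FM_eq : FM = 2 ^ 1024 - 1 := by decide +kernel

theorem FM_testBit {s : ℕ} (hs : s < 1024) : FM.testBit s = true := by
  rw [FM_eq, Nat.testBit_two_pow_sub_one, decide_eq_true_eq]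
  exact hs

theorem winK_subset_cellsOf {off : Cell} {E k : ℕ} (hk : VM.testBit k = true)
    (hE : E.testBit k = true) : winK off k ⊆ dec off (cellsOf E) := by
  intro c hc
  rw [mem_winK] at hc
  obtain ⟨j, hj, rfl⟩ := hc
  have h1 := VM_cells hk hj
  have h4096 := VM_lt hk
  rw [cellOf_mem_dec h1]
  unfold cellsOf
  simp only [lor_testBit, Bool.or_eq_true]
  have hs : k % 1024 < 1024 := Nat.mod_lt _ (by norm_num)
  have hd' : k / 1024 = 0 ∨ k / 1024 = 1 ∨ k / 1024 = 2 ∨ k / 1024 = 3 := by omega
  rcases hd' with h | h | h | h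
  · left; left
    rw [h]
    refine expand_bit ?_ hj
    rw [land_testBit, FM_testBit hs]
    have : k % 1024 = k := by omega
    rw [this, hE]; rfl
  · left; right
    rw [h]
    refine expand_bit ?_ hj
    rw [land_testBit, FM_testBit hs, shr_testBit]
    have : 1024 + k % 1024 = k := by omega
    rw [this, hE]; rfl
  · right; left
    rw [h]
    refine expand_bit ?_ hj
    rw [land_testBit, FM_testBit hs, shr_testBit]
    have : 2048 + k % 1024 = k := by omega
    rw [this, hE]; rfl
  · right; right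
    rw [h]
    refine expand_bit ?_ hj
    rw [land_testBit, FM_testBit hs, shr_testBit]
    have : 3072 + k % 1024 = k := by omega
    rw [this, hE]; rfl

/-- shift of one window -/
theorem win_shift {off : Cell} {k dx dy : ℕ} (hk : VM.testBit k = true)
    (h : ∀ j, j < 5 → (k % 1024 + j * delta (k / 1024)) % 32 + dx < 32 ∧
      (k % 1024 + j * delta (k / 1024)) / 32 + dy < 32) :
    VM.testBit (k + (dx + 32 * dy)) = true ∧
      winK off (k + (dx + 32 * dy)) = winK (off.1 + dx, off.2 + dy) k := by
  obtain ⟨h1, h2⟩ := VM_vok hk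
  have h0 := h 0 (by norm_num)
  have h4 := h 4 (by norm_num)
  rw [Nat.zero_mul, Nat.add_zero] at h0
  have e1 : (k + (dx + 32 * dy)) / 1024 = k / 1024 := by omega
  have e2 : (k + (dx + 32 * dy)) % 1024 = k % 1024 + (dx + 32 * dy) := by omega
  constructor
  · rw [VM_iff (by omega), e1, e2]
    have e3 : (k + (dx + 32 * dy)) % 32 = k % 32 + dx := by omega
    have e4 : (k % 1024 + (dx + 32 * dy)) / 32 = k % 1024 / 32 + dy := by omega
    rw [e3, e4]
    unfold VOK at h2 ⊢
    have hd' : k / 1024 = 0 ∨ k / 1024 = 1 ∨ k / 1024 = 2 ∨ k / 1024 = 3 := by omega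
    rcases hd' with hd | hd | hd | hd <;> rw [hd] at h2 h4 ⊢ <;> simp only [delta] at h4 <;>
      simp at h2 ⊢ <;> omega
  · unfold winK
    refine image_congr fun j hj => ?_
    simp only [coe_range, Set.mem_Iio] at hj
    rw [e1, e2, ← cellOf_shift (h j hj).1]
    congr 1
    omega

/-- translation of window masks. `n` (cells) contains all cells of the windows in `E`. -/
theorem inMask_shift {off : Cell} {E n dx dy : ℕ}
    (h : ∀ i, i < 1024 → n.testBit i = true → i % 32 + dx < 32 ∧ i / 32 + dy < 32)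
    (hEV : ∀ k, E.testBit k = true → VM.testBit k = true)
    (hEn : ∀ k, E.testBit k = true → ∀ j, j < 5 →
      n.testBit (k % 1024 + j * delta (k / 1024)) = true) (L : Finset Cell) :
    InMask off (Nat.shiftLeft E (dx + 32 * dy)) L ↔ InMask (off.1 + dx, off.2 + dy) E L := by
  have key : ∀ k, E.testBit k = true → VM.testBit (k + (dx + 32 * dy)) = true ∧
      winK off (k + (dx + 32 * dy)) = winK (off.1 + dx, off.2 + dy) k := fun k hk =>
    win_shift (hEV k hk) fun j hj => h _ (VM_cells (hEV k hk) hj) (hEn k hk j hj)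
  constructor
  · rintro ⟨k, h1, h2, rfl⟩
    rw [shl_testBit, Bool.and_eq_true, decide_eq_true_eq] at h2
    obtain ⟨h3, h4⟩ := key _ h2.2
    have e : k - (dx + 32 * dy) + (dx + 32 * dy) = k := Nat.sub_add_cancel h2.1
    rw [e] at h4
    exact ⟨_, hEV _ h2.2, h2.2, h4⟩
  · rintro ⟨k, h1, h2, rfl⟩
    obtain ⟨h3, h4⟩ := key k h2
    refine ⟨k + (dx + 32 * dy), h3, ?_, h4.symm⟩
    rw [shl_testBit, Bool.and_eq_true, decide_eq_true_eq, Nat.add_sub_cancel]
    exact ⟨Nat.le_add_left _ _, h2⟩

theorem winK_tr {s : Cell} {k : ℕ} : winK s k = mv (tr s) (winK (0, 0) k) := by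
  ext c
  rw [mem_mv, mem_winK, mem_winK]
  constructor
  · rintro ⟨j, hj, rfl⟩
    exact ⟨j, hj, by rw [cellOf_tr, Equiv.symm_apply_apply]⟩
  · rintro ⟨j, hj, h2⟩
    exact ⟨j, hj, by rw [cellOf_tr, ← h2, Equiv.apply_symm_apply]⟩

theorem inMask_mv_tr {s : Cell} {E : ℕ} {L : Finset Cell} :
    InMask s E (mv (tr s) L) ↔ InMask (0, 0) E L := by
  constructor
  · rintro ⟨k, h1, h2, h3⟩
    refine ⟨k, h1, h2, ?_⟩
    rw [winK_tr] at h3
    have := congrArg (mv (tr s).symm) h3
    rwa [mv_symm_mv, mv_symm_mv] at this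
  · rintro ⟨k, h1, h2, rfl⟩
    exact ⟨k, h1, h2, winK_tr.symm⟩

end Pool.Agent.Gomoku
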