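import Pool.Agent.Helper47.Gom2.RootDef
import Pool.Agent.Helper47.Gomoku.ItemCheckSound

set_option autoImplicit false

namespace Pool.Agent.Gomoku

open Finset

theorem innerB_inner {x : ℕ} (h : innerB x = true) : Inner x := by
  unfold innerB at h
  rw [Bool.and_eq_true] at h
  have h1 : x < 1024 := by
    have := Nat.le_of_ble_eq_true h.1
    omega
  apply nim_inner x h1
  have h2 := eq_of_beq h.2
  have h3 : (Nat.land NIM (bit1 x)).testBit x = false := by rw [h2]; simp
  rw [tb_land] at h3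
  unfold bit1 at h3
  rw [tb_bit] at h3
  simpa using h3

theorem Env.antiK {B K K' : Finset Cell} {cap : Finset Cell → ℕ} {X Y : Finset Cell}
    {P : Option (Cell × Cell)} (hK : K ⊆ K') (h : Env B K' cap X Y P) : Env B K cap X Y P := by
  rcases P with _ | ⟨p, q⟩
  · obtain ⟨h1, h2, h3, h4⟩ := h
    exact ⟨h1, Finset.disjoint_of_subset_right hK h2, Finset.disjoint_of_subset_right hK h3, h4⟩
  · obtain ⟨⟨hpq, hpK, hqK, hr⟩, h1, h2, h3, h4⟩ := h
    exact ⟨⟨hpq, fun hc => hpK (hK hc), fun hc => hqK (hK hc), hr⟩, h1,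
      Finset.disjoint_of_subset_right hK h2, Finset.disjoint_of_subset_right hK h3, h4⟩

theorem GValid.monoK {B W K K' : Finset Cell} {capJ : Finset Cell → ℕ} (hK : K ⊆ K')
    (h : GValid B W K capJ) : GValid B W K' capJ := by
  obtain ⟨n, hn⟩ := h
  exact ⟨n, fun y h1 h2 X Y P hE h3 h4 h5 => hn y h1 h2 X Y P (hE.antiK hK) h3 h4 h5⟩

/-- check of the data of a G node: third stone `b3`, zone inside `KG` -/
def gdChk (gt : ℕ → Item) (fuel p1 p2 b3 w0 : ℕ) (st : List ℕ) (KG : ℕ) : Bool :=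
  let s2 := (St.empty.addB p1).addB p2
  (innerB p1) && (innerB p2) && (Nat.blt b3 1024) && (isFree s2 b3) &&
    (match evJ2 gt fuel (s2.addB b3) w0 st with
      | RG.bad => false
      | RG.ok _ K _ => subB K KG)

theorem gdChk_sound {gt : ℕ → Item} (hgt : ∀ i, ItemValid2 (gt i)) {fuel p1 p2 b3 w0 : ℕ}
    {st : List ℕ} {KG : ℕ} (h : gdChk gt fuel p1 p2 b3 w0 st KG = true) :
    GDGood p1 p2 (b3, KG) := by
  unfold gdChk at h
  simp only [Bool.and_eq_true] at h
  obtain ⟨⟨⟨⟨h1, h2⟩, h3⟩, h4⟩, h5⟩ := h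
  have hb3 : b3 < 1024 := by
    have := Nat.le_of_ble_eq_true h3
    omega
  refine ⟨hb3, fun off => ?_⟩
  have i1 := innerB_inner h1
  have i2 := innerB_inner h2
  have hI2 : Inv off ((St.empty.addB p1).addB p2) :=
    (Inv.empty.addB i1 (by simp [St.empty])).addB i2 (by simp [St.empty, St.addB])
  have hs2 : dec off ((St.empty.addB p1).addB p2).b =
      dec off (Nat.lor (bit1 p1) (bit1 p2)) := by
    have e1 : dec off ((St.empty.addB p1).addB p2).b =
        insert (cellOf off p2) (dec off (St.empty.addB p1).b) := dec_insert (inner_lt i2)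
    have e2 : dec off (St.empty.addB p1).b =
        insert (cellOf off p1) (dec off St.empty.b) := dec_insert (inner_lt i1)
    have e3 : dec off St.empty.b = ∅ := dec_zero
    have e4 : dec off (Nat.lor (bit1 p1) (bit1 p2)) =
        insert (cellOf off p2) (dec off (bit1 p1)) := dec_insert (inner_lt i2)
    have e5 : dec off (bit1 p1) = {cellOf off p1} := dec_bit (inner_lt i1)
    rw [e1, e2, e3, e4, e5]
    rfl
  obtain ⟨hin, hb, hw⟩ := isFree_spec hb3 h4
  have hI := hI2.addB hin hw
  split at h5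
  · simp at h5
  · rename_i st' K C hev
    have hK := subB_spec h5
    obtain ⟨hbK, hG⟩ := evJ2_sound hgt hI hev
    have hins : dec off (((St.empty.addB p1).addB p2).addB b3).b =
        insert (cellOf off b3) (dec off (Nat.lor (bit1 p1) (bit1 p2))) := by
      rw [← hs2]
      exact dec_insert hb3
    rw [hins] at hG
    refine ⟨?_, ?_, hG.monoK (hK.dec off)⟩
    · show cellOf off b3 ∉ _
      rw [← hs2, cellOf_mem_dec hb3, hb]; simp
    · show insert (cellOf off b3) (dec off (Nat.lor (bit1 p1) (bit1 p2))) ⊆ dec off KG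
      rw [← hins]
      exact (hbK.trans hK).dec off

/-- list of G data with a default -/
def gdOf : List (ℕ × ℕ) → (ℕ × ℕ) → ℕ → ℕ × ℕ
  | [], d, _ => d
  | g :: l, d, i => cond (Nat.beq i 0) g (gdOf l d (Nat.sub i 1))

theorem gdOf_good {p1 p2 : ℕ} {d : ℕ × ℕ} (hd : GDGood p1 p2 d) :
    ∀ {l : List (ℕ × ℕ)}, (∀ g ∈ l, GDGood p1 p2 g) → ∀ i, GDGood p1 p2 (gdOf l d i) := by
  intro l
  induction l with
  | nil => intro _ i; exact hd
  | cons g l ih =>
    intro hl i
    unfold gdOf
    rw [cond_eq_ite]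
    split_ifs
    · exact hl g List.mem_cons_self
    · exact ih (fun g' hg' => hl g' (List.mem_cons_of_mem _ hg')) _

/-- check of a translation of the data of a G node by `(dx, dy)` -/
def gdShiftChk (dx dy p1 p2 b3 KG p1' p2' b3' KG' : ℕ) : Bool :=
  let s := Nat.add dx (Nat.mul 32 dy)
  (Nat.ble dx 31) && (Nat.ble dy 31) && (Nat.beq (Nat.land KG (colMask dx)) 0) &&
    (Nat.beq (Nat.shiftRight KG (Nat.sub 1024 (Nat.mul 32 dy))) 0) &&
    (subB (Nat.lor (bit1 p1) (bit1 p2)) KG) &&
    (Nat.beq p1' (Nat.add p1 s)) && (Nat.beq p2' (Nat.add p2 s)) &&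
    (Nat.beq b3' (Nat.add b3 s)) && (Nat.beq KG' (Nat.shiftLeft KG s))

theorem gd_shift {dx dy p1 p2 b3 KG p1' p2' b3' KG' : ℕ} (h : GDGood p1 p2 (b3, KG))
    (hc : gdShiftChk dx dy p1 p2 b3 KG p1' p2' b3' KG' = true) : GDGood p1' p2' (b3', KG') := by
  unfold gdShiftChk at hc
  simp only [Bool.and_eq_true] at hc
  obtain ⟨⟨⟨⟨⟨⟨⟨⟨h1, h2⟩, h3⟩, h4⟩, h5⟩, h6⟩, h7⟩, h8⟩, h9⟩ := hc
  have h1 := Nat.le_of_ble_eq_true h1
  have h2 := Nat.le_of_ble_eq_true h2
  have h3 := eq_of_beq h3
  have h4 := eq_of_beq h4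
  have h5 := subB_spec h5
  have e1 : p1' = p1 + (dx + 32 * dy) := eq_of_beq h6
  have e2 : p2' = p2 + (dx + 32 * dy) := eq_of_beq h7
  have e3 : b3' = b3 + (dx + 32 * dy) := eq_of_beq h8
  have e4 : KG' = Nat.shiftLeft KG (dx + 32 * dy) := eq_of_beq h9
  subst e1 e2 e3 e4
  have hhigh : ∀ i, 1024 - 32 * dy ≤ i → KG.testBit i = false := by
    intro i hi
    have h5 : (Nat.shiftRight KG (Nat.sub 1024 (Nat.mul 32 dy))).testBit
        (i - (1024 - 32 * dy)) = false := by
      rw [h4]; simp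
    have h6 : (KG >>> (1024 - 32 * dy)).testBit (i - (1024 - 32 * dy)) = false := h5
    rw [Nat.testBit_shiftRight] at h6
    have h7 : 1024 - 32 * dy + (i - (1024 - 32 * dy)) = i := by omega
    rwa [h7] at h6
  have hbox : ∀ i, i < 1024 → KG.testBit i = true → i % 32 + dx < 32 ∧ i / 32 + dy < 32 := by
    intro i hi hbit
    constructor
    · by_contra hne
      have h5 := colMask_spec dx (by omega) i hi (by omega)
      have h6 : (Nat.land KG (colMask dx)).testBit i = false := by
        rw [h3]; simp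
      rw [tb_land, hbit, h5] at h6
      simp at h6
    · by_contra hne
      have := hhigh i (by omega)
      rw [hbit] at this
      exact absurd this (by simp)
  have hbig : ∀ i, 1024 ≤ i → KG.testBit i = false := fun i hi => hhigh i (by omega)
  have hlt : ∀ i, KG.testBit i = true → i < 1024 := by
    intro i hi
    by_contra hne
    rw [hbig i (by omega)] at hi
    exact absurd hi (by simp)
  obtain ⟨g1, g2⟩ := h
  have g1 : b3 < 1024 := g1
  have hb3 : KG.testBit b3 = true := by
    have := (g2 (0, 0)).2.1 (Finset.mem_insert_self _ _)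
    exact (cellOf_mem_dec g1).1 this
  have hB : ∀ i, (Nat.lor (bit1 p1) (bit1 p2)).testBit i = true → KG.testBit i = true :=
    fun i hi => h5 i hi
  have k1 := hbox b3 g1 hb3
  refine ⟨?_, fun off => ?_⟩
  · show b3 + (dx + 32 * dy) < 1024
    omega
  · have f1 : cellOf off (b3 + (dx + 32 * dy)) = cellOf (off.1 + dx, off.2 + dy) b3 :=
      cellOf_add k1.1
    have f2 : dec off (Nat.shiftLeft KG (dx + 32 * dy)) = dec (off.1 + dx, off.2 + dy) KG :=
      dec_shift hbox hbig
    have f3 : Nat.lor (bit1 (p1 + (dx + 32 * dy))) (bit1 (p2 + (dx + 32 * dy))) =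
        Nat.shiftLeft (Nat.lor (bit1 p1) (bit1 p2)) (dx + 32 * dy) := by
      apply Nat.eq_of_testBit_eq
      intro i
      have g3 : (Nat.shiftLeft (Nat.lor (bit1 p1) (bit1 p2)) (dx + 32 * dy)).testBit i =
          (decide (i ≥ dx + 32 * dy) && (Nat.lor (bit1 p1) (bit1 p2)).testBit
            (i - (dx + 32 * dy))) := Nat.testBit_shiftLeft _
      rw [g3]
      unfold bit1
      rw [tb_lor, tb_lor, tb_bit, tb_bit, tb_bit, tb_bit]
      by_cases hge : i ≥ dx + 32 * dy
      · have a1 : (p1 + (dx + 32 * dy) = i) ↔ (p1 = i - (dx + 32 * dy)) := by omega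
        have a2 : (p2 + (dx + 32 * dy) = i) ↔ (p2 = i - (dx + 32 * dy)) := by omega
        simp only [a1, a2, hge, decide_true, Bool.true_and]
      · have a1 : ¬ (p1 + (dx + 32 * dy) = i) := by omega
        have a2 : ¬ (p2 + (dx + 32 * dy) = i) := by omega
        simp only [a1, a2, hge, decide_false, Bool.false_and, Bool.or_self]
    have f4 : dec off (Nat.lor (bit1 (p1 + (dx + 32 * dy))) (bit1 (p2 + (dx + 32 * dy)))) =
        dec (off.1 + dx, off.2 + dy) (Nat.lor (bit1 p1) (bit1 p2)) := by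
      rw [f3]
      exact dec_shift (fun i hi hbit => hbox i hi (hB i hbit)) (fun i hi => by
        cases hc : (Nat.lor (bit1 p1) (bit1 p2)).testBit i
        · rfl
        · have := hB i hc
          rw [hbig i hi] at this
          exact absurd this (by simp))
    have g3 := g2 (off.1 + dx, off.2 + dy)
    simp only at g3 ⊢
    rw [f1, f2, f4]
    exact g3

end Pool.Agent.Gomoku
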