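import Pool.Agent.Helper58.Gomoku.XLow
import Pool.Agent.Helper47.Gom3.XSpec
set_option autoImplicit false
namespace Pool.Agent.Gomoku


open Finset

/-! ### Bits -/

theorem tb_xor2 (x y i : ℕ) : (Nat.xor x y).testBit i = (x.testBit i ^^ y.testBit i) :=
  Nat.testBit_xor x y i

theorem tb_shr (x k i : ℕ) : (Nat.shiftRight x k).testBit i = x.testBit (k + i) :=
  Nat.testBit_shiftRight (i := k) (j := i) x

theorem xExpand_eq (e : ℕ) : xExpand e 1 2 4 = expand e 1 ∧ xExpand e 32 64 128 = expand e 32 ∧
    xExpand e 33 66 132 = expand e 33 ∧ xExpand e 31 62 124 = expand e 31 := ⟨rfl, rfl, rfl, rfl⟩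

theorem xCells_eq' (E : ℕ) : xCells E = cellsOf E := by
  unfold xCells cellsOf
  rw [XFM_eq, (xExpand_eq _).1, (xExpand_eq _).2.1, (xExpand_eq _).2.2.1, (xExpand_eq _).2.2.2]

theorem xCells0_eq (E : ℕ) : xCells0 E = cellsOf0 E := by
  unfold xCells0 cellsOf0
  rw [xCells_eq']
  cases Nat.beq E 0 <;> rfl

theorem Sub.land {x y z : ℕ} (h : Sub x z) : Sub (Nat.land x y) (Nat.land z y) := by
  intro i hi
  rw [tb_land, Bool.and_eq_true] at hi ⊢
  exact ⟨h i hi.1, hi.2⟩

theorem Sub.shr {x z : ℕ} (h : Sub x z) (k : ℕ) : Sub (Nat.shiftRight x k) (Nat.shiftRight z k) := by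
  intro i hi
  rw [tb_shr] at hi ⊢
  exact h _ hi

theorem Sub.shl {x z : ℕ} (h : Sub x z) (k : ℕ) : Sub (Nat.shiftLeft x k) (Nat.shiftLeft z k) := by
  intro i hi
  have e : ∀ x : ℕ, (Nat.shiftLeft x k).testBit i = (decide (k ≤ i) && x.testBit (i - k)) :=
    fun x => Nat.testBit_shiftLeft x
  rw [e, Bool.and_eq_true] at hi ⊢
  exact ⟨hi.1, h _ hi.2⟩

theorem Sub.lor2 {x y z w : ℕ} (h : Sub x z) (h' : Sub y w) : Sub (Nat.lor x y) (Nat.lor z w) :=
  (h.trans (sub_lor_left _ _)).lor (h'.trans (sub_lor_right _ _))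

theorem Sub.expand {x z : ℕ} (h : Sub x z) (d : ℕ) : Sub (expand x d) (expand z d) := by
  unfold Gomoku.expand
  exact ((h.lor2 (h.shl _)).lor2 ((h.lor2 (h.shl _)).shl _)).lor2 (h.shl _)

theorem Sub.cells {x z : ℕ} (h : Sub x z) : Sub (cellsOf x) (cellsOf z) := by
  unfold cellsOf
  exact ((h.land.expand _).lor2 ((h.shr _).land.expand _)).lor2
    (((h.shr _).land.expand _).lor2 ((h.shr _).land.expand _))

theorem Sub.cells0' {x z : ℕ} (h : Sub x z) : Sub (cellsOf0 x) (cellsOf z) := by
  unfold cellsOf0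
  cases hb : Nat.beq x 0
  · exact h.cells
  · intro i hi; simp at hi

theorem Sub.cells0 {x z : ℕ} (h : Sub x z) : Sub (cellsOf0 x) (cellsOf0 z) := by
  by_cases hz : z = 0
  · subst hz
    have : x = 0 := by
      apply Nat.eq_of_testBit_eq
      intro i
      rw [Nat.zero_testBit]
      cases hx : x.testBit i
      · rfl
      · have := h i hx
        simp at this
    subst this
    exact Sub.refl _
  · have : cellsOf0 z = cellsOf z := by
      unfold cellsOf0
      have : Nat.beq z 0 = false := by
        cases hb : Nat.beq z 0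
        · rfl
        · exact absurd (eq_of_beq hb) hz
      rw [this]; rfl
    rw [this]
    exact h.cells0'

theorem laneX_tb (A l i : ℕ) : (laneX A l).testBit i = (A.testBit (132 + 4096 * l + i) && XM.testBit i) := by
  unfold laneX
  rw [tb_land, tb_shr]

theorem gC_tb (G i : ℕ) : (gC G).testBit i = (G.testBit (132 + i) && XM.testBit i) := by
  unfold gC
  rw [tb_land, tb_shr]

theorem gE_tb (G i : ℕ) : (gE G).testBit i = (G.testBit (4228 + i) && XM.testBit i) := by
  unfold gE
  rw [tb_land, tb_shr]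

theorem lane_gC {C k l G : ℕ} (h : Sub (Nat.shiftRight C k) G) (hk : k = 4096 * l) :
    Sub (laneX C l) (gC G) := by
  intro i hi
  rw [laneX_tb, Bool.and_eq_true] at hi
  rw [gC_tb, hi.2, Bool.and_true]
  apply h
  rw [tb_shr, ← hi.1]
  congr 1
  omega

theorem lane_gE {C k l G : ℕ} (h : Sub (Nat.shiftRight C k) G) (hk : k + 4096 = 4096 * l) :
    Sub (laneX C l) (gE G) := by
  intro i hi
  rw [laneX_tb, Bool.and_eq_true] at hi
  rw [gE_tb, hi.2, Bool.and_true]
  apply h
  rw [tb_shr, ← hi.1]
  congr 1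
  omega

theorem lane3_cells {C : ℕ} : Sub (cellsOf0 (laneX C 3)) (xCells0 (Nat.shiftRight C 12420)) := by
  rw [xCells0_eq]
  apply Sub.cells0
  intro i hi
  rw [laneX_tb, Bool.and_eq_true] at hi
  rw [tb_shr, ← hi.1]

theorem gC_mono {G G' : ℕ} (h : Sub G G') : Sub (gC G) (gC G') := (h.shr _).land

theorem gE_mono {G G' : ℕ} (h : Sub G G') : Sub (gE G) (gE G') := (h.shr _).land

theorem xZone_mono {K G K' G' : ℕ} (hK : Sub K K') (hG : Sub G G') (hN : Sub XNIM K) :
    Sub (xZone K G) (xZone K' G') := by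
  unfold xZone
  rw [xCells_eq', xCells_eq']
  refine Sub.lor2 ?_ (gE_mono hG).cells
  intro i hi
  rw [tb_xor2] at hi ⊢
  rcases Bool.eq_false_or_eq_true (XNIM.testBit i) with h1 | h1
  · rw [h1, hN i h1] at hi
    simp at hi
  · rw [h1, Bool.xor_false] at hi ⊢
    exact hK i hi

theorem inner_nim : ∀ c, c < 1024 → Inner c → NIM.testBit c = false := by
  unfold Inner
  decide +kernel

theorem inner_xnim {c : ℕ} (h : Inner c) : XNIM.testBit c = false := by
  rw [XNIM_eq]; exact inner_nim c (inner_lt h) h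

theorem zone_of_inner {K G i : ℕ} (h : Inner i) (hK : K.testBit i = true) :
    (xZone K G).testBit i = true := by
  unfold xZone
  rw [tb_lor, tb_xor2, hK, inner_xnim h]
  rfl

theorem zone_cells {E K G : ℕ} (h : Sub E (gE G)) : Sub (cellsOf0 E) (xZone K G) := by
  unfold xZone
  rw [xCells_eq']
  exact h.cells0'.trans (sub_lor_right _ _)

/-! ### `V2` -/

theorem V2.mono {off : Cell} {s : St} {K G K' G' : ℕ} (hK : Sub K K') (hG : Sub G G')
    (hN : Sub XNIM K) (h : V2 off s K G) : V2 off s K' G' :=
  validV2_mono (xZone_mono hK hG hN) (gC_mono hG) h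

theorem V2.five {off : Cell} {s : St} {c K G : ℕ} (hI : Inv off s) (h : Five s c)
    (hc : K.testBit c = true) (hN : Sub XNIM K) : V2 off s K G := by
  obtain ⟨hclt, hf, k, h5⟩ := h
  obtain ⟨hin, hb, hw⟩ := isFree_spec hclt hf
  obtain ⟨hl1, hl2⟩ := fiveOK_spec h5 off
  unfold V2 dataV
  apply valid2_of_five (c := cellOf off c)
  · rw [cellOf_mem_dec hclt, hw]; simp
  · rw [cellOf_mem_dec hclt]
    exact zone_of_inner hin hc
  · refine ⟨_, hl1, ?_⟩
    rw [← dec_insert hclt]
    exact hl2

theorem Fours.mono_st {s s1 : St} {C : ℕ} (h : Fours s s1 C) : Sub s.b s1.b ∧ Sub s.w s1.w := by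
  induction h with
  | nil s C => exact ⟨Sub.refl _, Sub.refl _⟩
  | cons s s' C c t k hc ht hfc hft h5 h4 h1 h2 h3 hn h ih =>
    exact ⟨(sub_lor_left _ _).trans ih.1, (sub_lor_left _ _).trans ih.2⟩

theorem Fours.inv {off : Cell} {s s1 : St} {C : ℕ} (hI : Inv off s) (h : Fours s s1 C) :
    Inv off s1 := by
  induction h with
  | nil s C => exact hI
  | cons s s' C c t k hc ht hfc hft h5 h4 h1 h2 h3 hn h ih =>
    obtain ⟨hin, hb, hw⟩ := isFree_spec hc hfc
    obtain ⟨htin, htb, htw⟩ := isFree_spec ht hft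
    exact ih ((hI.addB hin hw).addW htin htb)

/-- stones are in the zone -/
theorem zone_stones {off : Cell} {s : St} (hI : Inv off s) {K G : ℕ}
    (hK : Sub (Nat.lor s.b s.w) K) :
    dec off s.b ⊆ dec off (xZone K G) ∧ dec off s.w ⊆ dec off (xZone K G) := by
  constructor
  · apply Sub.dec
    intro i hi
    exact zone_of_inner (hI.bi i hi) (hK.of_lor_left i hi)
  · apply Sub.dec
    intro i hi
    exact zone_of_inner (hI.wi i hi) (hK.of_lor_right i hi)

/-- fours at level 2 -/
theorem Fours.V2 {off : Cell} {s s1 : St} {C K G : ℕ} (hI : Inv off s) (h : Fours s s1 C)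
    (hK : Sub (Nat.lor (Nat.lor s1.b s1.w) XNIM) K)
    (hC : Sub (laneX C 2) (gC G)) (hE : Sub (laneX C 3) (gE G))
    (hV : V2 off s1 K G) : V2 off s K G := by
  induction h with
  | nil s C => exact hV
  | cons s s' C c t k hc ht hfc hft h5 h4 h1 h2 h3 hn h ih =>
    obtain ⟨hin, hb, hw⟩ := isFree_spec hc hfc
    obtain ⟨htin, htb, htw⟩ := isFree_spec ht hft
    obtain ⟨hl1, hl2⟩ := fiveOK_spec h5 off
    have hI1 : Inv off (s.addB c) := hI.addB hin hw
    have hI2 : Inv off ((s.addB c).addW t) := hI1.addW htin htb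
    have hV2 := ih hI2 hK hC hE hV
    obtain ⟨m1, m2⟩ := h.mono_st
    have hKbw := hK.of_lor_left
    have hsb : Sub (Nat.lor s.b (Nat.shiftLeft 1 c)) K := m1.trans hKbw.of_lor_left
    have hsw : Sub (Nat.lor s.w (Nat.shiftLeft 1 t)) K := m2.trans hKbw.of_lor_right
    unfold Gomoku.V2 dataV at hV2 ⊢
    apply valid2_of_and (c := cellOf off c) (K' := dec off (xZone K G))
      (cap' := capV off true (gC G))
    · rw [cellOf_mem_dec hc, hw]; simp
    · rw [cellOf_mem_dec hc]; exact zone_of_inner hin hsb.of_lor_right.bit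
    · exact Finset.Subset.refl _
    · intro L _ _
      exact min_le_left _ _
    rw [← dec_insert hc]
    apply andValid2_four (t := cellOf off t) (K' := dec off (xZone K G))
      (cap' := capV off true (gC G))
    · exact (zone_stones (s := s) hI (hsb.of_lor_left.lor hsw.of_lor_left)).2
    · rw [cellOf_mem_dec ht]
      have : s.w.testBit t = false := htw
      rw [this]; simp
    · rw [cellOf_mem_dec ht]; exact zone_of_inner htin hsw.of_lor_right.bit
    · refine ⟨_, hl1, ?_⟩
      rw [← dec_insert ht]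
      exact hl2
    · exact checkV hI1 h4 (zone_cells (h3.trans hE)) (h2.trans hC)
    · exact Finset.Subset.refl _
    · intro L _ _
      exact min_le_left _ _
    · have e : insert (cellOf off t) (dec off s.w) = dec off ((s.addB c).addW t).w := by
        show _ = dec off (Nat.lor s.w (Nat.shiftLeft 1 t))
        rw [dec_insert ht]
      rw [e]
      exact hV2

/-- a line of fours as null item -/
theorem Fours.line {off : Cell} {s s1 : St} {C c : ℕ} (hI : Inv off s) (h : Fours s s1 C)
    (hf : Five s1 c) : ∃ E3, Sub E3 (laneX C 3) ∧ Sub E3 (laneX C 2) ∧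
      ∀ K, Sub (Nat.lor (Nat.lor s1.b s1.w) (Nat.shiftLeft 1 c)) K → Sub (cellsOf0 E3) K →
        Valid2 ⟨dec off s.b, dec off s.w, dec off K, capOf off (laneX C 2) (laneX C 1) 3⟩ := by
  induction h with
  | nil s C =>
    refine ⟨0, fun i hi => by simp at hi, fun i hi => by simp at hi, fun K hK _ => ?_⟩
    obtain ⟨hclt, hf, k, h5⟩ := hf
    obtain ⟨hin, hb, hw⟩ := isFree_spec hclt hf
    obtain ⟨hl1, hl2⟩ := fiveOK_spec h5 off
    apply valid2_of_five (c := cellOf off c)
    · rw [cellOf_mem_dec hclt, hw]; simp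
    · rw [cellOf_mem_dec hclt]
      exact hK.of_lor_right.bit
    · refine ⟨_, hl1, ?_⟩
      rw [← dec_insert hclt]
      exact hl2
  | cons s s' C c1 t k hc ht hfc hft h5 h4 h1 h2 h3 hn h ih =>
    obtain ⟨hin, hb, hw⟩ := isFree_spec hc hfc
    obtain ⟨htin, htb, htw⟩ := isFree_spec ht hft
    obtain ⟨hl1, hl2⟩ := fiveOK_spec h5 off
    have hI1 : Inv off (s.addB c1) := hI.addB hin hw
    have hI2 : Inv off ((s.addB c1).addW t) := hI1.addW htin htb
    obtain ⟨E, hE3, hE2, hE⟩ := ih hI2 hf
    refine ⟨Nat.lor (s.addB c1).a3 E, h3.lor hE3, (hn.trans h2).lor hE2, fun K hK hKE => ?_⟩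
    have hV2 := hE K hK ((sub_lor_right _ _).cells0.trans hKE)
    have hK3 : Sub (cellsOf0 (s.addB c1).a3) K := (sub_lor_left _ _).cells0.trans hKE
    obtain ⟨m1, m2⟩ := h.mono_st
    have hKbw := hK.of_lor_left
    have hsb : Sub (Nat.lor s.b (Nat.shiftLeft 1 c1)) K := m1.trans hKbw.of_lor_left
    have hsw : Sub (Nat.lor s.w (Nat.shiftLeft 1 t)) K := m2.trans hKbw.of_lor_right
    apply valid2_of_and (c := cellOf off c1) (K' := dec off K)
      (cap' := capOf off (laneX C 2) (laneX C 1) 3)
    · rw [cellOf_mem_dec hc, hw]; simp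
    · rw [cellOf_mem_dec hc]; exact hsb.of_lor_right.bit
    · exact Finset.Subset.refl _
    · intro L _ _
      exact min_le_left _ _
    rw [← dec_insert hc]
    apply andValid2_four (t := cellOf off t) (K' := dec off K)
      (cap' := capOf off (laneX C 2) (laneX C 1) 3)
    · exact hsw.of_lor_left.dec off
    · rw [cellOf_mem_dec ht]
      have : s.w.testBit t = false := htw
      rw [this]; simp
    · rw [cellOf_mem_dec ht]; exact hsw.of_lor_right.bit
    · refine ⟨_, hl1, ?_⟩
      rw [← dec_insert ht]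
      exact hl2
    · exact check3 hI1 h4 hK3 h2 h1
    · exact Finset.Subset.refl _
    · intro L _ _
      exact min_le_left _ _
    · have e : insert (cellOf off t) (dec off s.w) = dec off ((s.addB c1).addW t).w := by
        show _ = dec off (Nat.lor s.w (Nat.shiftLeft 1 t))
        rw [dec_insert ht]
      rw [e]
      exact hV2

/-! ### The evaluator -/

theorem evX_zero (N b F A K G : ℕ) : evX 0 N b F A K G = RX.bad := rfl

theorem evX_succ (n N b F A K G : ℕ) : evX (n + 1) N b F A K G =
    Bool.rec (motive := fun _ => RX)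
      (evO (Nat.lor b (Nat.shiftLeft 1 (Nat.mod (Nat.shiftRight N 1) 1024)))
        (Nat.lor F (Nat.shiftLeft 1 (Nat.mod (Nat.shiftRight N 1) 1024)))
        (fun N4 E K4 Z =>
          Bool.rec (motive := fun _ => RX) RX.bad
            (evN (Nat.lor b (Nat.shiftLeft 1 (Nat.mod (Nat.shiftRight N 1) 1024)))
              (Nat.lor F (Nat.shiftLeft 1 (Nat.mod (Nat.shiftRight N 1) 1024)))
              (Nat.xor (Nat.lor A (Nat.shiftLeft XT5 (Nat.mod (Nat.shiftRight N 1) 1024)))
                (Nat.shiftLeft XT5 (Nat.mod (Nat.shiftRight N 1) 1024)))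
              (fun N5 U K5 G5 =>
                evR (evX n) (Nat.lor b (Nat.shiftLeft 1 (Nat.mod (Nat.shiftRight N 1) 1024)))
                  (Nat.lor F (Nat.shiftLeft 1 (Nat.mod (Nat.shiftRight N 1) 1024)))
                  (Nat.xor (Nat.lor A (Nat.shiftLeft XT5 (Nat.mod (Nat.shiftRight N 1) 1024)))
                    (Nat.shiftLeft XT5 (Nat.mod (Nat.shiftRight N 1) 1024)))
                  U (Nat.mod (Nat.shiftRight N 19) 64) N5
                  (Nat.lor F (Nat.shiftLeft 1 (Nat.mod (Nat.shiftRight N 1) 1024))) K5 G5)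
              (Nat.mod (Nat.shiftRight N 15) 16) N4
              (Nat.lor E (xCells0 (Nat.shiftRight
                (Nat.xor (Nat.lor A (Nat.shiftLeft XT5 (Nat.mod (Nat.shiftRight N 1) 1024)))
                (Nat.shiftLeft XT5 (Nat.mod (Nat.shiftRight N 1) 1024))) 12420))) K4
              (Nat.lor G (Nat.shiftRight
                (Nat.xor (Nat.lor A (Nat.shiftLeft XT5 (Nat.mod (Nat.shiftRight N 1) 1024)))
                (Nat.shiftLeft XT5 (Nat.mod (Nat.shiftRight N 1) 1024))) 4096)))
            (Nat.beq Z 0))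
        (Nat.mod (Nat.shiftRight N 11) 16) (Nat.shiftRight N 25) XFM
        (Nat.lor K (Nat.lor F (Nat.shiftLeft 1 (Nat.mod (Nat.shiftRight N 1) 1024))))
        (Nat.lor (Nat.land F (Nat.shiftLeft 1 (Nat.mod (Nat.shiftRight N 1) 1024)))
          (Nat.shiftRight
            (Nat.xor (Nat.lor A (Nat.shiftLeft XT5 (Nat.mod (Nat.shiftRight N 1) 1024)))
                (Nat.shiftLeft XT5 (Nat.mod (Nat.shiftRight N 1) 1024))) 16516)))
      (evL (Nat.mod (Nat.shiftRight N 1) 16) (Nat.shiftRight N 5) b F A 0 fun N' b' F' A' C' =>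
        Bool.rec (motive := fun _ => RX)
          (evX n (Nat.shiftRight N' 1) b' F' A' K (Nat.lor G (Nat.shiftRight C' 8192)))
          (evE (Nat.shiftRight N' 1) b' F' fun N'' F'' =>
            RX.ok N'' (Nat.lor K F'') (Nat.lor G (Nat.shiftRight C' 8192)))
          (Nat.beq (Nat.mod N' 2) 0))
      (Nat.beq (Nat.mod N 2) 0) := rfl

theorem evR_zero (f : ℕ → ℕ → ℕ → ℕ → ℕ → ℕ → RX) (b F A U N Y K G : ℕ) :
    evR f b F A U 0 N Y K G =
      Bool.rec (motive := fun _ => RX) RX.bad (RX.ok N K G)
        (Nat.beq (Nat.lor U (Nat.xor Y XNIM)) (Nat.xor Y XNIM)) := rfl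

theorem evR_succ (f : ℕ → ℕ → ℕ → ℕ → ℕ → ℕ → RX) (b F A U m N Y K G : ℕ) :
    evR f b F A U (m + 1) N Y K G =
      evW (Nat.mod N 16) (Nat.shiftRight N 4) F A 0 fun N' F' A' Z =>
        Bool.rec (motive := fun _ => RX) RX.bad
          (RX.rec (motive := fun _ => RX) RX.bad
            (fun N'' K' G' => evR f b F A U m N'' (Nat.lor Y F') K' G')
            (f N' b F' A' K G))
          (Nat.beq Z 0) := rfl

/-- what the recursive call gives -/
def XSpec (off : Cell) (f : ℕ → ℕ → ℕ → ℕ → ℕ → ℕ → RX) : Prop :=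
  ∀ (N b F A K G N' K' G' : ℕ) (s : St), Rep off s b F A →
    f N b F A K G = RX.ok N' K' G' → Sub K K' ∧ Sub F K' ∧ Sub G G' ∧ V2 off s K' G'

theorem Rep.nim {off : Cell} {s : St} {b F A : ℕ} (h : Rep off s b F A) : Sub XNIM F := by
  rw [h.F]; exact sub_lor_right _ _

/-- the groups of replies -/
theorem evR_sound {off : Cell} {f : ℕ → ℕ → ℕ → ℕ → ℕ → ℕ → RX} (hf : XSpec off f)
    {s : St} {b F A : ℕ} (h : Rep off s b F A) (U : ℕ) :
    ∀ (m N Y K G N' K' G' : ℕ), Sub XNIM K → Sub XNIM Y →
      evR f b F A U m N Y K G = RX.ok N' K' G' →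
      Sub K K' ∧ Sub G G' ∧ ∃ I : List St,
        (∀ s' ∈ I, s'.b = s.b ∧ Sub s.w s'.w ∧ V2 off s' K' G') ∧
        ∀ i, U.testBit i = true → XNIM.testBit i = false ∧
          (Y.testBit i = true ∨ ∃ s' ∈ I, s'.b.testBit i = true ∨ s'.w.testBit i = true) := by
  intro m
  induction m with
  | zero =>
    intro N Y K G N' K' G' hK hY hev
    rw [evR_zero] at hev
    cases hb : Nat.beq (Nat.lor U (Nat.xor Y XNIM)) (Nat.xor Y XNIM)
    · rw [hb] at hev; simp at hev
    · rw [hb] at hev
      simp only [RX.ok.injEq] at hev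
      obtain ⟨-, rfl, rfl⟩ := hev
      refine ⟨Sub.refl _, Sub.refl _, [], by simp, ?_⟩
      intro i hi
      have h1 := eq_of_beq hb
      have h2 : (Nat.xor Y XNIM).testBit i = true := by
        rw [← h1, tb_lor, hi]; rfl
      rw [tb_xor2] at h2
      rcases Bool.eq_false_or_eq_true (XNIM.testBit i) with h3 | h3
      · rw [h3, hY i h3] at h2
        simp at h2
      · rw [h3, Bool.xor_false] at h2
        exact ⟨h3, Or.inl h2⟩
  | succ m ih =>
    intro N Y K G N' K' G' hK hY hev
    rw [evR_succ] at hev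
    obtain ⟨N1, F1, A1, Z1, hk, hZ⟩ := evW_spec _ hev
    cases hb : Nat.beq Z1 0
    · rw [hb] at hk; simp at hk
    · rw [hb] at hk
      obtain ⟨-, hrep⟩ := hZ (eq_of_beq hb)
      obtain ⟨s1, hs1, hb1, hw1⟩ := hrep off s b h
      cases hfe : f N1 b F1 A1 K G with
      | bad => rw [hfe] at hk; simp at hk
      | ok N2 K2 G2 =>
        rw [hfe] at hk
        simp only at hk
        obtain ⟨r1, r2, r3, r4⟩ := hf _ _ _ _ _ _ _ _ _ s1 hs1 hfe
        obtain ⟨i1, i2, I, i3, i4⟩ := ih _ _ _ _ _ _ _ (hK.trans r1)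
          (hY.trans (sub_lor_left _ _)) hk
        refine ⟨r1.trans i1, r3.trans i2, s1 :: I, ?_, ?_⟩
        · intro s' hs'
          rcases List.mem_cons.1 hs' with rfl | hs'
          · exact ⟨hb1, hw1, V2.mono i1 i2 (hK.trans r1) r4⟩
          · exact i3 s' hs'
        · intro i hi
          obtain ⟨j1, j2⟩ := i4 i hi
          refine ⟨j1, ?_⟩
          rcases j2 with j2 | ⟨s', hs', j2⟩
          · rw [tb_lor, Bool.or_eq_true] at j2
            rcases j2 with j2 | j2
            · exact Or.inl j2
            · right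
              refine ⟨s1, List.mem_cons_self, ?_⟩
              rw [hs1.F, tb_lor, tb_lor, Bool.or_eq_true, Bool.or_eq_true] at j2
              rcases j2 with j2 | j2
              · exact j2
              · rw [j2] at j1; simp at j1
          · exact Or.inr ⟨s', List.mem_cons_of_mem _ hs', j2⟩

/-- a null item covers the replies outside of it -/
theorem cov_line {off : Cell} {s s1 : St} {C c K G : ℕ} (hI : Inv off s) (h : Fours s s1 C)
    (hf : Five s1 c) (hK : Sub (Nat.lor (Nat.lor s1.b s1.w) (Nat.shiftLeft 1 c)) K)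
    (h1 : Sub (laneX C 1) (gC G)) (h2 : Sub (laneX C 2) (gE G)) :
    ∃ D : Data, Valid2 D ∧ ∀ y, y ∉ dec off s.w →
      y ∉ dec off (Nat.lor (Nat.lor s1.b s1.w) (Nat.shiftLeft 1 c)) →
      y ∉ dec off (cellsOf0 (laneX C 3)) →
      Covers2 (dec off s.b) (dec off s.w) (dec off (xZone K G)) (capV off true (gC G)) D y := by
  obtain ⟨E3, hE3, hE2, hV⟩ := h.line hI hf
  have hIs1 := h.inv hI
  refine ⟨_, hV (Nat.lor (Nat.lor (Nat.lor s1.b s1.w) (Nat.shiftLeft 1 c)) (cellsOf0 E3))
    (sub_lor_left _ _) (sub_lor_right _ _), ?_⟩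
  intro y hyw hyO hyC
  have hsd := ins_sdiff_self hyw
  have hyK : y ∉ dec off (Nat.lor (Nat.lor (Nat.lor s1.b s1.w) (Nat.shiftLeft 1 c))
      (cellsOf0 E3)) := by
    rw [dec_lor, Finset.mem_union, not_or]
    exact ⟨hyO, fun h => hyC (hE3.cells0.dec off h)⟩
  refine ⟨Finset.Subset.refl _, ?_, ?_, ?_⟩
  · simp only
    rw [hsd, Finset.disjoint_singleton_left]
    exact hyK
  · show dec off _ ⊆ dec off _
    apply Sub.dec
    refine Sub.lor ?_ (zone_cells (hE2.trans h2))
    obtain ⟨hclt, hfr, -⟩ := hf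
    obtain ⟨hin, -, -⟩ := isFree_spec hclt hfr
    refine Sub.lor (Sub.lor ?_ ?_) ?_
    · intro i hi
      exact zone_of_inner (hIs1.bi i hi) (hK.of_lor_left.of_lor_left i hi)
    · intro i hi
      exact zone_of_inner (hIs1.wi i hi) (hK.of_lor_left.of_lor_right i hi)
    · intro i hi
      rw [tb_bit, decide_eq_true_eq] at hi
      subst hi
      exact zone_of_inner hin hK.of_lor_right.bit
  · intro L hL hd
    simp only
    rw [hsd]
    have hc1 : (L ∩ {y}).card ≤ 1 :=
      (Finset.card_le_card Finset.inter_subset_right).trans (by simp)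
    have hceff : ceff (dec off (xZone K G)) (capV off true (gC G)) L ≤ capV off true (gC G) L :=
      min_le_left _ _
    by_cases d1 : InMask off (laneX C 2) L
    · rw [ceff_zero d1 (zone_cells h2), capOf_le_of_c1 d1]
      omega
    by_cases d2 : InMask off (laneX C 1) L
    · have h3 : capOf off (laneX C 2) (laneX C 1) 3 L = 2 := by
        unfold capOf
        rw [if_neg d1, if_pos d2]
      have := capV_le1 (off := off) (v := true) (C1 := gC G) (L := L) (Or.inr (h1.inMask d2))
      omega
    · have h3 : capOf off (laneX C 2) (laneX C 1) 3 L = 3 := by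
        unfold capOf
        rw [if_neg d1, if_neg d2]
      have := capV_le2 (off := off) (v := true) (C1 := gC G) (L := L)
      omega

theorem minus_sub (x t : ℕ) : Sub (minus x t) x := by
  intro i hi
  rw [tb_minus, Bool.and_eq_true] at hi
  exact hi.1

/-- an open four as a line with one four -/
theorem OpenF.fours {off : Cell} {s : St} {b F A c t u : ℕ} (hR : Rep off s b F A)
    (h4 : s.a4 = 0) (h : OpenF s c t u) :
    ∃ s1, Fours s s1 A ∧ Five s1 u ∧
      Nat.lor (Nat.lor s1.b s1.w) (Nat.shiftLeft 1 u) = Nat.lor (Nat.lor s.b s.w)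
        (Nat.lor (Nat.lor (Nat.shiftLeft 1 c) (Nat.shiftLeft 1 t)) (Nat.shiftLeft 1 u)) := by
  obtain ⟨hc, ht, hu, fc, ft, fu, nct, ncu, ntu, ⟨k1, h51⟩, ⟨k2, h52⟩⟩ := h
  have free_add : ∀ {x y : ℕ}, x ≠ y → ∀ {s : St}, isFree s y = true →
      isFree (s.addB x) y = true ∧ isFree (s.addW x) y = true := by
    intro x y hxy s hf
    have key : Nat.land (Nat.shiftLeft 1 x) (Nat.shiftLeft 1 y) = 0 := by
      apply Nat.eq_of_testBit_eq
      intro i
      rw [tb_land, tb_bit, tb_bit, Nat.zero_testBit]
      by_cases h : x = i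
      · subst h
        simp [Ne.symm hxy]
      · simp [h]
    unfold isFree at hf ⊢
    have h1 := eq_of_beq hf
    constructor
    · have : Nat.land (Nat.lor (Nat.lor (s.addB x).b (s.addB x).w) NIM) (Nat.shiftLeft 1 y) = 0 := by
        apply Nat.eq_of_testBit_eq
        intro i
        have h2 := congrArg (fun z => Nat.testBit z i) h1
        have h3 := congrArg (fun z => Nat.testBit z i) key
        simp only [tb_land, tb_lor, Nat.zero_testBit] at h2 h3 ⊢
        change (((s.b ||| (1 <<< x)).testBit i || s.w.testBit i || _) && _) = false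
        rw [Nat.testBit_or]
        change ((((s.b).testBit i || (Nat.shiftLeft 1 x).testBit i) || s.w.testBit i || _) && _) = false
        revert h2 h3
        cases (s.b).testBit i <;> cases (Nat.shiftLeft 1 x).testBit i <;>
          cases s.w.testBit i <;> cases NIM.testBit i <;>
          cases (Nat.shiftLeft 1 y).testBit i <;> simp
      rw [this]; rfl
    · have : Nat.land (Nat.lor (Nat.lor (s.addW x).b (s.addW x).w) NIM) (Nat.shiftLeft 1 y) = 0 := by
        apply Nat.eq_of_testBit_eq
        intro i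
        have h2 := congrArg (fun z => Nat.testBit z i) h1
        have h3 := congrArg (fun z => Nat.testBit z i) key
        simp only [tb_land, tb_lor, Nat.zero_testBit] at h2 h3 ⊢
        change ((s.b.testBit i || (s.w ||| (1 <<< x)).testBit i || _) && _) = false
        rw [Nat.testBit_or]
        change (((s.b).testBit i || (s.w.testBit i || (Nat.shiftLeft 1 x).testBit i) || _) && _) = false
        revert h2 h3
        cases (s.b).testBit i <;> cases (Nat.shiftLeft 1 x).testBit i <;>
          cases s.w.testBit i <;> cases NIM.testBit i <;>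
          cases (Nat.shiftLeft 1 y).testBit i <;> simp
      rw [this]; rfl
  refine ⟨(s.addB c).addW t, ?_, ?_, ?_⟩
  · refine Fours.cons s _ A c t k1 hc ht fc (free_add nct ft).1 h51 ?_ ?_ ?_ ?_ ?_ (Fours.nil _ _)
    · show minus s.a4 (WT c) = 0
      rw [h4]
      apply Nat.eq_of_testBit_eq
      intro i
      rw [tb_minus, Nat.zero_testBit]; rfl
    · rw [← hR.a1]; exact minus_sub _ _
    · rw [← hR.a2]; exact minus_sub _ _
    · rw [← hR.a3]; exact minus_sub _ _
    · intro i hi
      have hi' : (minus s.a3 (WT c)).testBit i = true := hi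
      show (minus s.a2 (WT c)).testBit i = true
      rw [tb_minus, Bool.and_eq_true] at hi' ⊢
      exact ⟨hR.n3 i hi'.1, hi'.2⟩
  · exact ⟨hu, (free_add ntu (free_add ncu fu).1).2, k2, h52⟩
  · apply Nat.eq_of_testBit_eq
    intro i
    show (Nat.lor (Nat.lor (Nat.lor s.b (Nat.shiftLeft 1 c)) (Nat.lor s.w (Nat.shiftLeft 1 t))) _).testBit i = _
    simp only [tb_lor]
    cases (s.b).testBit i <;> cases (Nat.shiftLeft 1 c).testBit i <;>
      cases s.w.testBit i <;> cases (Nat.shiftLeft 1 t).testBit i <;> simp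

theorem evX_sound {off : Cell} : ∀ (n N b F A K G N' K' G' : ℕ) (s : St), Rep off s b F A →
    evX n N b F A K G = RX.ok N' K' G' →
    Sub K K' ∧ Sub F K' ∧ Sub G G' ∧ V2 off s K' G' := by
  intro n
  induction n with
  | zero =>
    intro N b F A K G N' K' G' s _ hev
    rw [evX_zero] at hev
    simp at hev
  | succ n ih =>
    intro N b F A K G N' K' G' s hR hev
    rw [evX_succ] at hev
    have hI := hR.inv
    cases hb : Nat.beq (Nat.mod N 2) 0
    · -- a quiet move
      rw [hb] at hev
      simp only at hev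
      generalize hcdef : Nat.mod (Nat.shiftRight N 1) 1024 = c at hev
      have hc : c < 1024 := by rw [← hcdef]; exact Nat.mod_lt _ (by norm_num)
      generalize hA1 : Nat.xor (Nat.lor A (Nat.shiftLeft XT5 c)) (Nat.shiftLeft XT5 c) = A1 at hev
      obtain ⟨N1, E1, K1, Z1, hk, hKK1, hZ⟩ := evO_spec _ hev
      clear hev
      cases hbz : Nat.beq Z1 0
      · rw [hbz] at hk; simp at hk
      rw [hbz] at hk
      simp only at hk
      obtain ⟨hZ0, hnull⟩ := hZ (eq_of_beq hbz)
      have hland : Nat.land F (Nat.shiftLeft 1 c) = 0 ∧ Nat.shiftRight A1 16516 = 0 := by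
        constructor
        · apply Nat.eq_of_testBit_eq
          intro i
          have := congrArg (fun z => Nat.testBit z i) hZ0
          simp only [tb_lor, Nat.zero_testBit, Bool.or_eq_false_iff] at this
          rw [this.1, Nat.zero_testBit]
        · apply Nat.eq_of_testBit_eq
          intro i
          have := congrArg (fun z => Nat.testBit z i) hZ0
          simp only [tb_lor, Nat.zero_testBit, Bool.or_eq_false_iff] at this
          rw [this.2, Nat.zero_testBit]
      have hfree : isFree s c = true := hR.free hc hland.1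
      obtain ⟨hin, hbb, hww⟩ := isFree_spec hc hfree
      have hR1 := hR.addB hc hfree
      rw [hA1] at hR1
      have h4 : (s.addB c).a4 = 0 := hR1.no4 hland.2
      obtain ⟨hnO, hnO'⟩ := hnull off (s.addB c) A1 hR1
      have hI1 := hR1.inv
      obtain ⟨N2, U2, K2, G2, hk2, hKK2, hGG2, hU2, hU2'⟩ := evN_spec _ hR1 hk
      clear hk
      have hF1 : Sub (Nat.lor F (Nat.shiftLeft 1 c)) K2 := hKK1.of_lor_right.trans hKK2
      obtain ⟨r1, r2, I, r3, r4⟩ := evR_sound (f := evX n) (fun N b F A K G N' K' G' s h1 h2 =>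
        ih N b F A K G N' K' G' s h1 h2) hR1 U2 _ _ _ _ _ _ _ _ (hR1.nim.trans hF1) hR1.nim hk2
      clear hk2
      have hKK' : Sub K K' := (hKK1.of_lor_left.trans hKK2).trans r1
      have hF1K : Sub (Nat.lor F (Nat.shiftLeft 1 c)) K' := hF1.trans r1
      have hGA : Sub (Nat.shiftRight A1 4096) G' := (hGG2.of_lor_right).trans r2
      have hGG' : Sub G G' := (hGG2.of_lor_left).trans r2
      refine ⟨hKK', hF1K.of_lor_left, hGG', ?_⟩
      have lC : Sub (laneX A1 1) (gC G') := lane_gC hGA rfl
      have lE : Sub (laneX A1 2) (gE G') := lane_gE hGA rfl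
      have hst : Sub (Nat.lor (s.addB c).b (s.addB c).w) K' := by
        have : Sub (Nat.lor (s.addB c).b (s.addB c).w) (Nat.lor F (Nat.shiftLeft 1 c)) := by
          rw [hR1.F]; exact sub_lor_left _ _
        exact this.trans hF1K
      have hins : dec off (s.addB c).b = insert (cellOf off c) (dec off s.b) := dec_insert hc
      obtain ⟨z1, z2⟩ := zone_stones (K := K') (G := G') hI1 hst
      -- the null items
      have nullO : ∀ O, NullOp (s.addB c) K1 O → ∃ D : Data, Valid2 D ∧
          ∀ y, y ∉ dec off (s.addB c).b → y ∉ dec off (s.addB c).w → y ∉ dec off O →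
            y ∉ dec off (cellsOf0 (laneX A1 3)) →
            Covers2 (dec off (s.addB c).b) (dec off (s.addB c).w) (dec off (xZone K' G'))
              (capV off true (gC G')) D y := by
        rintro O ⟨c', t, u, hop, rfl, hOK⟩
        obtain ⟨s1, hfo, hfi, heq⟩ := hop.fours hR1 h4
        obtain ⟨D, hD, hcov⟩ := cov_line (K := K') (G := G') hI1 hfo hfi (by
          rw [heq]
          exact hst.lor ((hOK.trans hKK2).trans r1)) lC lE
        refine ⟨D, hD, fun y hyb hyw hyO hyC => hcov y hyw ?_ hyC⟩
        rw [heq, dec_lor, dec_lor, Finset.mem_union, Finset.mem_union]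
        rintro ((h | h) | h)
        · exact hyb h
        · exact hyw h
        · exact hyO h
      have nullL : ∀ O, NullLn (s.addB c) K2 G2 O → ∃ D : Data, Valid2 D ∧
          ∀ y, y ∉ dec off (s.addB c).w → y ∉ dec off O →
            Covers2 (dec off (s.addB c).b) (dec off (s.addB c).w) (dec off (xZone K' G'))
              (capV off true (gC G')) D y := by
        rintro O ⟨s1, C, c', hfo, hfi, hOK, hl1, hl2, rfl⟩
        obtain ⟨D, hD, hcov⟩ := cov_line (K := K') (G := G') hI1 hfo hfi (hOK.trans r1)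
          (hl1.trans (gC_mono r2)) (hl2.trans (gE_mono r2))
        refine ⟨D, hD, fun y hyw hyO => ?_⟩
        rw [dec_lor, Finset.mem_union, not_or] at hyO
        exact hcov y hyw hyO.1 (fun h => hyO.2 (lane3_cells.dec off h))
      -- groups
      have grp : ∀ s' ∈ I, ∀ y, y ∈ dec off s'.w → Valid2 (dataV off true s' (xZone K' G') (gC G')) ∧
          Covers2 (dec off (s.addB c).b) (dec off (s.addB c).w) (dec off (xZone K' G'))
              (capV off true (gC G')) (dataV off true s' (xZone K' G') (gC G')) y := by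
        intro s' hs' y hy
        obtain ⟨q1, q2, q3⟩ := r3 s' hs'
        refine ⟨q3, ?_⟩
        have e : insert y (dec off (s.addB c).w) \ dec off s'.w = ∅ := by
          rw [Finset.sdiff_eq_empty_iff_subset, Finset.insert_subset_iff]
          exact ⟨hy, q2.dec off⟩
        unfold dataV
        refine ⟨?_, ?_, Finset.Subset.refl _, ?_⟩
        · show dec off s'.b ⊆ _
          rw [q1]
        · show Disjoint (insert y (dec off (s.addB c).w) \ dec off s'.w) _
          rw [e]
          exact Finset.disjoint_empty_left _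
        · intro L hL hd
          show (L ∩ (insert y (dec off (s.addB c).w) \ dec off s'.w)).card + _ ≤ _
          rw [e, Finset.inter_empty, Finset.card_empty, Nat.zero_add]
          exact min_le_left _ _
      -- every reply is covered
      have covOn : ∀ i, i < 1024 → cellOf off i ∉ dec off (s.addB c).b →
          cellOf off i ∉ dec off (s.addB c).w →
          ∃ D : Data, Valid2 D ∧ Covers2 (dec off (s.addB c).b) (dec off (s.addB c).w)
            (dec off (xZone K' G')) (capV off true (gC G')) D (cellOf off i) := by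
        intro i hi hyb hyw
        cases hUi : U2.testBit i
        · rcases hU2 i hUi with h5 | ⟨O, hO, hOi⟩
          · rw [tb_lor, Bool.or_eq_false_iff] at h5
            rcases hnO i h5.1 with h6 | ⟨O, hO, hOi⟩
            · exfalso
              rw [XFM_eq, fm_onBoard i hi] at h6
              simp at h6
            · obtain ⟨D, hD, hcov⟩ := nullO O hO
              refine ⟨D, hD, hcov _ hyb hyw ?_ ?_⟩
              · rw [cellOf_mem_dec hi, hOi]; simp
              · intro h
                have h7 := lane3_cells.dec off h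
                rw [cellOf_mem_dec hi, h5.2] at h7
                simp at h7
          · obtain ⟨D, hD, hcov⟩ := nullL O hO
            refine ⟨D, hD, hcov _ hyw ?_⟩
            rw [cellOf_mem_dec hi, hOi]; simp
        · obtain ⟨h5, h6⟩ := r4 i hUi
          rw [cellOf_mem_dec hi] at hyb hyw
          rcases h6 with h6 | ⟨s', hs', h6⟩
          · exfalso
            rw [hR1.F, tb_lor, tb_lor, h5, Bool.or_false, Bool.or_eq_true] at h6
            rcases h6 with h6 | h6
            · exact hyb h6
            · exact hyw h6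
          · rcases h6 with h6 | h6
            · exfalso
              rw [(r3 s' hs').1] at h6
              exact hyb h6
            · obtain ⟨g1, g2⟩ := grp s' hs' (cellOf off i) ((cellOf_mem_dec hi).2 h6)
              exact ⟨_, g1, g2⟩
      have covOff : ∃ D : Data, Valid2 D ∧ ∀ y, ¬ OnBoard off y →
          Covers2 (dec off (s.addB c).b) (dec off (s.addB c).w)
            (dec off (xZone K' G')) (capV off true (gC G')) D y := by
        rcases hU2' with h5 | ⟨O, hO⟩
        · rcases hnO' with h6 | ⟨O, hO⟩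
          · exfalso
            have h7 : U2.testBit 0 = true := by
              rw [h5, tb_lor, h6, XFM_eq, fm_onBoard 0 (by norm_num)]; rfl
            have h8 := (r4 0 h7).1
            rw [XNIM_eq] at h8
            exact absurd h8 (by decide +kernel)
          · obtain ⟨D, hD, hcov⟩ := nullO O hO
            refine ⟨D, hD, fun y hout => ?_⟩
            have hno : ∀ n, y ∉ dec off n := fun n h => hout (onBoard_of_mem h)
            exact hcov y (hno _) (hno _) (hno _) (hno _)
        · obtain ⟨D, hD, hcov⟩ := nullL O hO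
          refine ⟨D, hD, fun y hout => ?_⟩
          have hno : ∀ n, y ∉ dec off n := fun n h => hout (onBoard_of_mem h)
          exact hcov y (hno _) (hno _)
      obtain ⟨D0, hD0, hcov0⟩ := covOff
      have covAll : ∀ i, ∃ D : Data, Valid2 D ∧ (i < 1024 → cellOf off i ∉ dec off (s.addB c).b →
          cellOf off i ∉ dec off (s.addB c).w →
          Covers2 (dec off (s.addB c).b) (dec off (s.addB c).w)
            (dec off (xZone K' G')) (capV off true (gC G')) D (cellOf off i)) := by
        intro i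
        by_cases h : i < 1024 ∧ cellOf off i ∉ dec off (s.addB c).b ∧
          cellOf off i ∉ dec off (s.addB c).w
        · obtain ⟨D, hD, hc'⟩ := covOn i h.1 h.2.1 h.2.2
          exact ⟨D, hD, fun _ _ _ => hc'⟩
        · exact ⟨D0, hD0, fun h1 h2 h3 => absurd ⟨h1, h2, h3⟩ h⟩
      choose f hf1 hf2 using covAll
      unfold V2 dataV
      apply valid2_of_and (c := cellOf off c) (K' := dec off (xZone K' G'))
        (cap' := capV off true (gC G'))
      · rw [cellOf_mem_dec hc, hww]; simp
      · apply z1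
        rw [hins]; exact Finset.mem_insert_self _ _
      · exact Finset.Subset.refl _
      · intro L _ _
        exact min_le_left _ _
      rw [← hins]
      show AndValid2 ⟨dec off (s.addB c).b, dec off (s.addB c).w, dec off (xZone K' G'),
        capV off true (gC G')⟩
      refine andValid2_of_items' z2
        (checkV hI1 h4 (zone_cells (Sub.trans ?_ lE)) (Sub.trans ?_ lC))
        (D0 :: (List.range 1024).map f) ?_ ?_
      · intro i hi
        have := hR1.n3 i hi
        rw [← hR1.a2]; exact this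
      · intro i hi
        have := hR1.n2 i hi
        rw [← hR1.a1]; exact this
      · intro D hD
        rcases List.mem_cons.1 hD with rfl | hD
        · exact hD0
        · obtain ⟨i, -, rfl⟩ := List.mem_map.1 hD
          exact hf1 i
      · intro y hyb hyw
        by_cases hout : OnBoard off y
        · obtain ⟨i, hi, rfl⟩ := hout
          exact ⟨f i, List.mem_cons_of_mem _ (List.mem_map.2 ⟨i, List.mem_range.2 hi, rfl⟩),
            hf2 i hi hyb hyw⟩
        · exact ⟨D0, List.mem_cons_self, hcov0 y hout⟩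
    · -- a line
      rw [hb] at hev
      simp only at hev
      obtain ⟨N1, b1, F1, A1, C1, s1, hR1, hfo, -, hk⟩ := evL_spec _ hR hev
      obtain ⟨m1, m2⟩ := hfo.mono_st
      have hFF : Sub F F1 := by
        rw [hR.F, hR1.F]
        exact (m1.lor2 m2).lor2 (Sub.refl _)
      cases hb2 : Nat.beq (Nat.mod N1 2) 0
      · rw [hb2] at hk
        simp only at hk
        obtain ⟨r1, r2, r3, r4⟩ := ih _ _ _ _ _ _ _ _ _ s1 hR1 hk
        refine ⟨r1, hFF.trans r2, r3.of_lor_left, ?_⟩
        exact Fours.V2 hI hfo (by rw [← hR1.F]; exact r2) (lane_gC r3.of_lor_right rfl)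
          (lane_gE r3.of_lor_right rfl) r4
      · rw [hb2] at hk
        simp only at hk
        obtain ⟨c, hc, hk⟩ := evE_spec hR1 hk
        simp only [RX.ok.injEq] at hk
        obtain ⟨-, rfl, rfl⟩ := hk
        have hFK : Sub F1 (Nat.lor K (Nat.lor F1 (Nat.shiftLeft 1 c))) :=
          (sub_lor_left _ _).trans (sub_lor_right _ _)
        refine ⟨sub_lor_left _ _, hFF.trans hFK, sub_lor_left _ _, ?_⟩
        refine Fours.V2 hI hfo (by rw [← hR1.F]; exact hFK) (lane_gC (sub_lor_right _ _) rfl)
          (lane_gE (sub_lor_right _ _) rfl) ?_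
        refine V2.five hR1.inv hc ?_ (hR1.nim.trans hFK)
        rw [tb_lor, tb_lor, tb_bit]
        simp

end Pool.Agent.Gomoku
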